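import Pool.Agent.Helper52_ABB.E6Stmts2
import Pool.Agent.Helper70_ABA.Trip

/-! # Words of hexagons: positions, letters, paths, distances (MP_d857f1_al, part B) -/

set_option autoImplicit false

namespace Pool.Agent.ABA.B.H52

open Knd Pool.Agent.ABA Pool.Agent.ABA.B Pool.Agent.ABA.B.TG Pool.Agent.ABA.B.H17
  Pool.Agent.ABA.B.H89 Pool.Agent.ABA.B.H49

/-! ## words -/

namespace Cfg

section words

variable {V E : Type} (C : Cfg V E)

theorem wd_add (i a b : ℕ) : C.wd i (a + b) = C.wd i a ++ C.wd (i + a) b := by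
  induction a generalizing i with
  | zero => simp [wd]
  | succ a ih =>
    rw [show a + 1 + b = (a + b) + 1 by omega]
    simp only [wd, ih, List.append_assoc]
    rw [show i + (a + 1) = i + 1 + a by omega]

theorem wd_one (i : ℕ) : C.wd i 1 = C.s i ++ C.d i := by simp [wd]

theorem wd_len (i k : ℕ) : C.o i + (C.wd i k).length = C.o (i + k) := by
  induction k generalizing i with
  | zero => simp [wd]
  | succ k ih =>
    have h1 := ih (i + 1)
    rw [show i + (k + 1) = i + 1 + k by omega, ← h1]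
    simp only [wd, List.length_append, o]
    omega

theorem wd_len0 (k : ℕ) : (C.wd 0 k).length = C.o k := by
  have := C.wd_len 0 k
  simpa [o] using this

theorem o_succ (i : ℕ) : C.o (i + 1) = C.m i + (C.d i).length := rfl

theorem o_le_m (i : ℕ) : C.o i ≤ C.m i := Nat.le_add_right _ _

theorem m_eq_o {i : ℕ} : C.m i = C.o i ↔ C.s i = [] := by
  unfold m
  rw [Nat.add_eq_left, List.length_eq_zero_iff]

/-- every leg has at least one letter -/
def Pos : Prop := ∀ i, 1 ≤ (C.d i).length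

variable {C}

theorem Pos.m_lt (h : C.Pos) (i : ℕ) : C.m i < C.o (i + 1) := by
  have := h i
  rw [o_succ]; omega

theorem Pos.o_lt (h : C.Pos) (i : ℕ) : C.o i < C.o (i + 1) :=
  lt_of_le_of_lt (C.o_le_m i) (h.m_lt i)

theorem Pos.o_mono (h : C.Pos) : StrictMono C.o := strictMono_nat_of_lt_succ h.o_lt

theorem Pos.le_o (h : C.Pos) (k : ℕ) : k ≤ C.o k := h.o_mono.id_le k

/-- every position lies in a segment -/
theorem Pos.exists_seg (h : C.Pos) (t : ℕ) : ∃ i, C.o i ≤ t ∧ t < C.o (i + 1) := by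
  have h1 : ∃ k, t < C.o k := ⟨t + 1, lt_of_lt_of_le (Nat.lt_succ_self t) (h.le_o (t + 1))⟩
  classical
  obtain ⟨k, hk, hk'⟩ : ∃ k, t < C.o k ∧ ∀ j < k, ¬ t < C.o j :=
    ⟨Nat.find h1, Nat.find_spec h1, fun j hj => Nat.find_min h1 hj⟩
  cases k with
  | zero => simp [o] at hk
  | succ k => exact ⟨k, not_lt.1 (hk' k (Nat.lt_succ_self k)), hk⟩

theorem Pos.seg_uniq (h : C.Pos) {i j t : ℕ} (h1 : C.o i ≤ t) (h2 : t < C.o (i + 1))
    (h3 : C.o j ≤ t) (h4 : t < C.o (j + 1)) : i = j := by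
  have e1 : ¬ i < j := fun hij => by
    have := h.o_mono.monotone (show i + 1 ≤ j by omega)
    omega
  have e2 : ¬ j < i := fun hij => by
    have := h.o_mono.monotone (show j + 1 ≤ i by omega)
    omega
  omega

/-- periodic -/
def Per (C : Cfg V E) : Prop := (∀ i, C.s (i + 6) = C.s i) ∧ ∀ i, C.d (i + 6) = C.d i

theorem Per.wd {C : Cfg V E} (h : C.Per) (i k : ℕ) : C.wd (i + 6) k = C.wd i k := by
  induction k generalizing i with
  | zero => rfl
  | succ k ih =>
    simp only [Cfg.wd, h.1, h.2]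
    rw [show i + 6 + 1 = (i + 1) + 6 by omega, ih]

theorem Per.o {C : Cfg V E} (h : C.Per) (i : ℕ) : C.o (i + 6) = C.o i + C.o 6 := by
  induction i with
  | zero => simp [Cfg.o]
  | succ i ih =>
    rw [show i + 1 + 6 = (i + 6) + 1 by omega]
    simp only [Cfg.o] at ih ⊢
    rw [h.1, h.2]
    omega

theorem Per.m {C : Cfg V E} (h : C.Per) (i : ℕ) : C.m (i + 6) = C.m i + C.o 6 := by
  unfold Cfg.m
  rw [h.o, h.1]
  omega

variable [Inhabited E]

theorem Pos.lt_wd (h : C.Pos) {t k : ℕ} (ht : t < C.o k) : (C.wd 0 k)[t]? = some (C.lt t) := by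
  have h1 : t < (C.wd 0 (t + 1)).length := by
    rw [C.wd_len0]
    exact lt_of_lt_of_le (Nat.lt_succ_self t) (h.le_o (t + 1))
  have h2 : (C.wd 0 (t + 1))[t]? = some (C.lt t) := by
    rw [lt, List.getD_eq_getElem?_getD, List.getElem?_eq_getElem h1]
    rfl
  rcases Nat.le_total k (t + 1) with hk | hk
  · obtain ⟨j, hj⟩ := Nat.exists_eq_add_of_le hk
    rw [hj, C.wd_add, List.getElem?_append_left (by rw [C.wd_len0]; exact ht)] at h2
    exact h2
  · obtain ⟨j, rfl⟩ := Nat.exists_eq_add_of_le hk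
    rw [C.wd_add, List.getElem?_append_left h1]
    exact h2

theorem Pos.wd_get (h : C.Pos) {i k j : ℕ} (hj : j < (C.wd i k).length) :
    (C.wd i k)[j]? = some (C.lt (C.o i + j)) := by
  have h1 : C.o i + j < C.o (i + k) := by rw [← C.wd_len i k]; omega
  have h2 := h.lt_wd h1
  rw [C.wd_add, Nat.zero_add, List.getElem?_append_right (by rw [C.wd_len0]; omega),
    C.wd_len0, Nat.add_sub_cancel_left] at h2
  exact h2

variable (C)

/-- the letters `a, …, a + k - 1` -/
def sg (a k : ℕ) : List E := (List.range k).map (fun j => C.lt (a + j))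

@[simp] theorem sg_length (a k : ℕ) : (C.sg a k).length = k := by simp [sg]

@[simp] theorem sg_zero (a : ℕ) : C.sg a 0 = [] := rfl

theorem sg_add (a k l : ℕ) : C.sg a (k + l) = C.sg a k ++ C.sg (a + k) l := by
  unfold sg
  rw [List.range_add, List.map_append, List.map_map]
  congr 1
  apply List.map_congr_left
  intro j _
  simp only [Function.comp_apply]
  rw [Nat.add_assoc]

theorem sg_one (a : ℕ) : C.sg a 1 = [C.lt a] := by simp [sg]

theorem sg_succ (a k : ℕ) : C.sg a (k + 1) = C.lt a :: C.sg (a + 1) k := by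
  rw [Nat.add_comm k 1, sg_add, sg_one]
  rfl

theorem sg_last (a k : ℕ) : C.sg a (k + 1) = C.sg a k ++ [C.lt (a + k)] := by
  rw [sg_add, sg_one]

theorem sg_get {a k j : ℕ} (hj : j < (C.sg a k).length) : (C.sg a k)[j] = C.lt (a + j) := by
  simp [sg]

theorem sg_get? {a k j : ℕ} (hj : j < k) : (C.sg a k)[j]? = some (C.lt (a + j)) := by
  rw [List.getElem?_eq_getElem (by simpa using hj), sg_get]

/-- splitting at a letter -/
theorem sg_split {a k t : ℕ} (h1 : a ≤ t) (h2 : t < a + k) :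
    C.sg a k = C.sg a (t - a) ++ C.lt t :: C.sg (t + 1) (a + k - t - 1) := by
  have e1 : k = (t - a) + ((a + k - t - 1) + 1) := by omega
  conv_lhs => rw [e1, sg_add, sg_succ]
  rw [show a + (t - a) = t by omega]

theorem sg_split2 {a k t : ℕ} (h1 : a ≤ t) (h2 : t + 1 < a + k) :
    C.sg a k = C.sg a (t - a) ++ C.lt t :: C.lt (t + 1) :: C.sg (t + 2) (a + k - t - 2) := by
  have e1 : k = (t - a) + ((a + k - t - 2) + 1 + 1) := by omega
  conv_lhs => rw [e1, sg_add, sg_succ, sg_succ]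
  rw [show a + (t - a) = t by omega]

variable {C}

theorem Pos.wd_sg (h : C.Pos) (i k : ℕ) : C.wd i k = C.sg (C.o i) (C.wd i k).length := by
  apply List.ext_getElem?
  intro j
  by_cases hj : j < (C.wd i k).length
  · rw [h.wd_get hj, C.sg_get? hj]
  · rw [List.getElem?_eq_none (by omega), List.getElem?_eq_none (by simp; omega)]

theorem Pos.s_sg (h : C.Pos) (i : ℕ) : C.s i = C.sg (C.o i) (C.s i).length := by
  have h1 := h.wd_sg i 1
  rw [wd_one, List.length_append, sg_add] at h1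
  exact (List.append_inj h1 (by simp)).1

theorem Pos.d_sg (h : C.Pos) (i : ℕ) : C.d i = C.sg (C.m i) (C.d i).length := by
  have h1 := h.wd_sg i 1
  rw [wd_one, List.length_append, sg_add] at h1
  exact (List.append_inj h1 (by simp)).2

theorem Pos.side_get (h : C.Pos) {i t : ℕ} (h1 : C.o i ≤ t) (h2 : t < C.m i) :
    (C.s i)[t - C.o i]? = some (C.lt t) := by
  rw [h.s_sg i, C.sg_get? (by unfold m at h2; omega)]
  congr 2; omega

theorem Pos.leg_get (h : C.Pos) {i t : ℕ} (h1 : C.m i ≤ t) (h2 : t < C.o (i + 1)) :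
    (C.d i)[t - C.m i]? = some (C.lt t) := by
  rw [h.d_sg i, C.sg_get? (by rw [o_succ] at h2; omega)]
  congr 2; omega

theorem Pos.side_mem (h : C.Pos) {i t : ℕ} (h1 : C.o i ≤ t) (h2 : t < C.m i) :
    C.lt t ∈ C.s i := List.mem_of_getElem? (h.side_get h1 h2)

theorem Pos.leg_mem (h : C.Pos) {i t : ℕ} (h1 : C.m i ≤ t) (h2 : t < C.o (i + 1)) :
    C.lt t ∈ C.d i := List.mem_of_getElem? (h.leg_get h1 h2)

/-! ## periodic words -/

theorem Per.lt (h : C.Per) (hp : C.Pos) (t : ℕ) : C.lt (t + C.o 6) = C.lt t := by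
  have h1 : t < C.o (t + 1) := lt_of_lt_of_le (Nat.lt_succ_self t) (hp.le_o (t + 1))
  have h2 : (C.wd 0 (t + 1))[t]? = some (C.lt t) := hp.lt_wd h1
  have h3 : (C.wd 0 (6 + (t + 1)))[t + C.o 6]? = some (C.lt (t + C.o 6)) := by
    apply hp.lt_wd
    have h5 := h.o (t + 1)
    rw [show 6 + (t + 1) = (t + 1) + 6 by omega]
    omega
  rw [C.wd_add, Nat.zero_add, List.getElem?_append_right (by rw [C.wd_len0]; omega), C.wd_len0,
    Nat.add_sub_cancel] at h3
  have h4 : C.wd 6 (t + 1) = C.wd 0 (t + 1) := by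
    have := h.wd 0 (t + 1)
    simpa using this
  rw [h4, h2] at h3
  exact (Option.some.inj h3).symm

theorem Per.sg (h : C.Per) (hp : C.Pos) (a k : ℕ) : C.sg (a + C.o 6) k = C.sg a k := by
  unfold Cfg.sg
  apply List.map_congr_left
  intro j _
  rw [show a + C.o 6 + j = (a + j) + C.o 6 by omega, h.lt hp]

theorem Per.lt_mod (h : C.Per) (hp : C.Pos) (t : ℕ) : C.lt (t % C.o 6) = C.lt t := by
  have key : ∀ (q r : ℕ), C.lt (r + C.o 6 * q) = C.lt r := by
    intro q
    induction q with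
    | zero => intro r; simp
    | succ q ih =>
      intro r
      rw [Nat.mul_succ, ← Nat.add_assoc, h.lt hp, ih]
  have := key (t / C.o 6) (t % C.o 6)
  rw [Nat.mod_add_div] at this
  exact this.symm

/-- the rotated word -/
theorem Per.rotate (h : C.Per) (hp : C.Pos) (k : ℕ) :
    (C.sg 0 (C.o 6)).rotate k = C.sg k (C.o 6) := by
  apply List.ext_getElem
  · simp
  · intro j h1 h2
    rw [List.getElem_rotate, sg_get, sg_get, sg_length]
    rw [Nat.zero_add, h.lt_mod hp, Nat.add_comm]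

end words

end Cfg

/-! ## hexagons -/

section

variable {G : Type} [Group G] {A B : Subgroup G} {g : G}
variable {hg : ¬ IsABA A B g} {hgeo : Geo A B} {hι : Function.Injective (Pι A B g)}
variable {c : ℕ → Car A B g} {ρ : ℕ → PP A B g} {n : ℕ} {C : Cfg (XV A B g) (XE A B g)}

theorem Ok.per (h : Ok hg hgeo hι c n C) : C.Per := ⟨h.ps, h.pd⟩

theorem Ok.pos (h : Ok hg hgeo hι c n C) (hn : 1 ≤ n) : C.Pos := fun i => by rw [h.len i]; exact hn

theorem Ok.o_succ (h : Ok hg hgeo hι c n C) (i : ℕ) : C.o (i + 1) = C.m i + n := by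
  rw [Cfg.o_succ, h.len]

theorem Ok.wdP (h : Ok hg hgeo hι c n C) (i k : ℕ) :
    (XX hg hgeo hι).IsP (C.xm i) (C.wd i k) (C.xm (i + k)) := by
  induction k generalizing i with
  | zero => rfl
  | succ k ih =>
    rw [show i + (k + 1) = i + 1 + k by omega]
    exact isP_append.2 ⟨_, (h.side i).1, isP_append.2 ⟨_, h.leg i, ih (i + 1)⟩⟩

/-- consecutive letters -/
theorem Ok.path (h : Ok hg hgeo hι c n C) (hn : 1 ≤ n) (t : ℕ) :
    xsrc (C.lt (t + 1)) = xsrc (xinv (C.lt t)) := by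
  have hp := h.pos hn
  have h1 := h.wdP 0 (t + 2)
  rw [hp.wd_sg 0 (t + 2)] at h1
  have hl : t + 2 ≤ (C.wd 0 (t + 2)).length := by rw [C.wd_len0]; exact hp.le_o _
  have h2 := isP_get h1 t (by rw [Cfg.sg_length]; omega)
  rw [Cfg.sg_get, Cfg.sg_get] at h2
  simp only [Cfg.o, Nat.zero_add] at h2
  exact h2

/-- the segment of letters is a path -/
theorem Ok.sgP (h : Ok hg hgeo hι c n C) (hn : 1 ≤ n) (a k : ℕ) :
    (XX hg hgeo hι).IsP (xsrc (C.lt a)) (C.sg a k) (xsrc (C.lt (a + k))) := by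
  induction k with
  | zero => rfl
  | succ k ih =>
    rw [Cfg.sg_last]
    refine isP_append.2 ⟨_, ih, rfl, ?_⟩
    exact (h.path hn (a + k)).symm

theorem Ok.src_o (h : Ok hg hgeo hι c n C) (hn : 1 ≤ n) (i : ℕ) : xsrc (C.lt (C.o i)) = C.xm i := by
  have hp := h.pos hn
  have h1 := h.wdP i 1
  rw [hp.wd_sg i 1] at h1
  obtain ⟨k, hk⟩ : ∃ k, (C.wd i 1).length = k + 1 := by
    have := hp i
    refine ⟨(C.wd i 1).length - 1, ?_⟩
    rw [Cfg.wd_one, List.length_append]; omega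
  rw [hk, Cfg.sg_succ] at h1
  exact h1.1

theorem Ok.src_m (h : Ok hg hgeo hι c n C) (hn : 1 ≤ n) (i : ℕ) : xsrc (C.lt (C.m i)) = C.xp i := by
  have hp := h.pos hn
  have h1 := h.leg i
  rw [hp.d_sg i] at h1
  obtain ⟨k, hk⟩ : ∃ k, (C.d i).length = k + 1 := ⟨(C.d i).length - 1, by have := hp i; omega⟩
  rw [hk, Cfg.sg_succ] at h1
  exact h1.1

/-- the letters of the sides lie in the planes -/
theorem Ok.car_side (h : Ok hg hgeo hι c n C) (hn : 1 ≤ n) {i t : ℕ} (h1 : C.o i ≤ t)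
    (h2 : t < C.m i) : car (C.lt t) = c i := (h.side i).2 _ ((h.pos hn).side_mem h1 h2)

/-- vertices of sides -/
theorem Ok.on_side (h : Ok hg hgeo hι c n C) (hn : 1 ≤ n) {i t : ℕ} (h1 : C.o i ≤ t)
    (h2 : t ≤ C.m i) : On (c i) (xsrc (C.lt t)) := by
  rcases Nat.lt_or_ge t (C.m i) with h3 | h3
  · rw [← h.car_side hn h1 h3]
    exact On_src _
  · have h4 : t = C.m i := by omega
    rw [h4, h.src_m hn]
    exact h.op i

theorem eP_src (h : Ok hg hgeo hι c n C) (hn : 1 ≤ n) (t : ℕ) : xsrc (eP C t) = C.xp t :=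
  h.src_m hn t

theorem eM_src (h : Ok hg hgeo hι c n C) (hn : 1 ≤ n) (t : ℕ) :
    xsrc (eM C (t + 1)) = C.xm (t + 1) := by
  have h1 := (h.pos hn).m_lt t
  have h2 := h.path hn (C.o (t + 1) - 1)
  rw [show C.o (t + 1) - 1 + 1 = C.o (t + 1) by omega, h.src_o hn] at h2
  exact h2.symm

/-! ### distances -/

theorem leg_dist (hc : Chn hg hgeo hι c ρ n) (h : Ok hg hgeo hι c n C) {i t : ℕ}
    (h1 : C.m i ≤ t) (h2 : t ≤ C.o (i + 1)) :
    dVC hg hgeo hι (xsrc (C.lt t)) (c (i + 1)) = C.o (i + 1) - t ∧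
      dVC hg hgeo hι (xsrc (C.lt t)) (c i) = t - C.m i := by
  have hn := hc.ps
  have e1 := h.o_succ i
  have p1 := h.sgP hn (C.m i) (t - C.m i)
  rw [show C.m i + (t - C.m i) = t by omega] at p1
  have p2 := h.sgP hn t (C.o (i + 1) - t)
  rw [show t + (C.o (i + 1) - t) = C.o (i + 1) by omega] at p2
  have o1 : On (c i) (xsrc (C.lt (C.m i))) := by rw [h.src_m hn]; exact h.op i
  have o2 : On (c (i + 1)) (xsrc (C.lt (C.o (i + 1)))) := by rw [h.src_o hn]; exact h.om (i + 1)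
  have l1 := dVC_path (hg := hg) (hgeo := hgeo) (hι := hι) o2 p2
  have l2 := dVC_path (hg := hg) (hgeo := hgeo) (hι := hι) o1 p1.rv
  have l3 := dCC_le_add (hg := hg) (hgeo := hgeo) (hι := hι) (xsrc (C.lt t)) (c i) (c (i + 1))
  rw [hc.ds i] at l3
  rw [Cfg.sg_length] at l1
  rw [rv_length, Cfg.sg_length] at l2
  omega

theorem eP_prj (hc : Chn hg hgeo hι c ρ n) (h : Ok hg hgeo hι c n C) (t : ℕ) :
    Prj hg hgeo hι (c (t + 1)) (C.xp t) (eP C t) := by
  have hn := hc.ps
  have e1 := h.o_succ t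
  have d1 := (leg_dist hc h (i := t) (t := C.m t) le_rfl (by omega)).1
  have d2 := (leg_dist hc h (i := t) (t := C.m t + 1) (by omega) (by omega)).1
  rw [h.path hn] at d2
  rw [h.src_m hn] at d1
  exact ⟨eP_src h hn t, by rw [eP, d2, d1]; omega⟩

theorem eM_prj (hc : Chn hg hgeo hι c ρ n) (h : Ok hg hgeo hι c n C) (t : ℕ) :
    Prj hg hgeo hι (c t) (C.xm (t + 1)) (eM C (t + 1)) := by
  have hn := hc.ps
  have e1 := h.o_succ t
  have d1 := (leg_dist hc h (i := t) (t := C.o (t + 1)) (by omega) le_rfl).2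
  have d2 := (leg_dist hc h (i := t) (t := C.o (t + 1) - 1) (by omega) (by omega)).2
  rw [h.src_o hn] at d1
  refine ⟨eM_src h hn t, ?_⟩
  have e2 : xinv (xinv (C.lt (C.o (t + 1) - 1))) = C.lt (C.o (t + 1) - 1) :=
    (XX hg hgeo hι).inv_inv _
  rw [eM, e2, d2, d1]
  omega

/-- the planes are disjoint -/
theorem Chn.disj (hc : Chn hg hgeo hι c ρ n) (i : ℕ) {x : XV A B g} (h1 : On (c i) x)
    (h2 : On (c (i + 1)) x) : False := by
  have := (dCC_eq_zero (hg := hg) (hgeo := hgeo) (hι := hι)).2 ⟨x, h1, h2⟩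
  rw [hc.ds i] at this
  have := hc.ps
  omega

/-- letters of legs are not in the planes -/
theorem leg_car (hc : Chn hg hgeo hι c ρ n) (h : Ok hg hgeo hι c n C) {i t : ℕ}
    (h1 : C.m i ≤ t) (h2 : t < C.o (i + 1)) : car (C.lt t) ≠ c i ∧ car (C.lt t) ≠ c (i + 1) := by
  have hn := hc.ps
  constructor
  · intro he
    have h3 := On_tgt (C.lt t)
    rw [he, ← h.path hn] at h3
    have h4 := (leg_dist hc h (i := i) (t := t + 1) (by omega) (by omega)).2
    rw [dVC_eq_zero.2 h3] at h4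
    omega
  · intro he
    have h3 := On_src (C.lt t)
    rw [he] at h3
    have h4 := (leg_dist hc h (i := i) (t := t) h1 (by omega)).1
    rw [dVC_eq_zero.2 h3] at h4
    omega

theorem eP_car (hc : Chn hg hgeo hι c ρ n) (h : Ok hg hgeo hι c n C) (t : ℕ) :
    car (eP C t) ≠ c t := (leg_car hc h le_rfl ((h.pos hc.ps).m_lt t)).1

theorem eM_car (hc : Chn hg hgeo hι c ρ n) (h : Ok hg hgeo hι c n C) (t : ℕ) :
    car (eM C (t + 1)) ≠ c (t + 1) := by
  have h1 := (h.pos hc.ps).m_lt t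
  rw [eM, car_inv]
  exact (leg_car hc h (i := t) (by omega) (by omega)).2



end

end Pool.Agent.ABA.B.H52
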