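import Pool.Agent.Helper10_ABA.Nsx
import Pool.Agent.Helper18_ABA.RotCol
import Pool.Agent.Helper18_ABA.Glue
import Pool.Agent.Helper19_ABA.Rev
import Pool.Agent.Helper31_ABA.Gb
import Pool.Agent.Helper31_ABA.Pinch
import Pool.Agent.Helper56_ABA.Close
import Pool.Agent.Helper56_ABA.Mir
import Pool.Agent.Helper63_ABA.Add
import Pool.Agent.Helper63_ABA.Ins
import Pool.Agent.Helper76_ABA.Area
import Pool.Agent.Helper76_ABA.Nsb
import Pool.Agent.Helper81_ABA.Fan
import Pool.Agent.Helper17_ABA.PT2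
import Pool.Agent.Helper83_ABA.PXSC
import Pool.Agent.Helper89_ABA.Pln7
import Pool.Agent.Helper89_ABA.Final2

/-! # The P-level theorem from its last three fields (MP_d857f1_al) -/

set_option autoImplicit false

namespace Pool.Agent.ABA.B.H52

open Pool.Agent.ABA Pool.Agent.ABA.B Pool.Agent.ABA.B.TG Pool.Agent.ABA.B.H17

theorem ins_ : InsStmt := H63.ins
theorem rot_ : RotStmt := H18.rot ins_
theorem col_ : ColStmt := H18.col ins_
theorem add_ : AddStmt := H63.add ins_
theorem glue_ : GlueStmt := H18.glue ins_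
theorem rev_ : RevStmt := H19.rev col_
theorem fan_ : FanStmt := H81.fan ins_ add_ col_
theorem close_ : CloseStmt := H56.close ins_ rot_ col_ glue_ fan_
theorem area_ : AreaStmt := by
  first
    | exact H76.area ins_ add_ rot_ col_ rev_ glue_ close_
    | exact H76.area ins_ add_ rot_ col_ rev_ close_
theorem nsb_ : NsBasicStmt := H76.nsb ins_ rot_ col_

theorem mods : Mods :=
  ⟨ins_, rot_, area_, nsb_, H31.gb, H10.nsx ins_ rot_ area_ nsb_,
    H56.mir ins_ rot_ col_ area_ nsb_, H31.pinch area_⟩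

section

variable {G : Type} [Group G] {A B : Subgroup G} {g : G}

/-- the last three fields -/
structure Last (A B : Subgroup G) (g : G) : Prop where
  r3 : R3 (PA A B g)
  e6 : ∀ h : PP A B g, ¬ IsABA (PA A B g) (PB A B g) h → E6 (PA A B g) h
  el : ∀ k : PP A B g, ∀ s ∈ PA A B g, ∀ t ∈ PB A B g, s ≠ 1 → t ≠ 1 → k * s * k⁻¹ * s ≠ t

/-- the statement of the three modules R3, E6, EL together -/
def LastStmt : Prop := ∀ (G : Type) [Group G] (A B : Subgroup G) (g : G)
  (hg : ¬ IsABA A B g) (hgeo : Geo A B) (hι : Function.Injective (Pι A B g)),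
  (∀ x ∈ A, ∀ y ∈ A, x * y = y * x) → (∀ x ∈ B, ∀ y ∈ B, x * y = y * x) → Mods →
  (XX hg hgeo hι).SC → Last A B g

theorem pa_inj (hι : Function.Injective (Pι A B g)) {a : G} {i j : ℤ}
    (h : Pι A B g a * Pu A B g ^ i * Pv A B g ^ j = 1) : a = 1 ∧ i = 0 ∧ j = 0 := by
  have h1 := congrArg (dg A B g 1 0) h
  have h2 := congrArg (dg A B g 0 1) h
  simp only [dg_mul, dg_zpow, dg_u, dg_v, dg_ι, dg_one] at h1 h2
  have hi : i = 0 := by simpa using h1
  have hj : j = 0 := by simpa using h2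
  subst hi hj
  rw [zpow_zero, zpow_zero, mul_one, mul_one] at h
  refine ⟨hι (by rw [h, map_one]), rfl, rfl⟩

theorem pb_inj (hι : Function.Injective (Pι A B g)) {b : G} {i : ℤ}
    (h : Pι A B g b * Pc A B g ^ i = 1) : b = 1 ∧ i = 0 := by
  have h1 := congrArg (dg A B g 1 0) h
  simp only [dg_mul, dg_zpow, dg_c, dg_ι, dg_one] at h1
  have hi : i = 0 := by
    have : i * (-1 - 0) = 0 := by linarith
    omega
  subst hi
  rw [zpow_zero, mul_one] at h
  exact ⟨hι (by rw [h, map_one]), rfl⟩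

/-- the P-level theorem from the last three fields -/
theorem pcore_of (h : LastStmt) : Asm.PCore := by
  intro G _ A B g hA hB hgeo hg hι
  have M := mods
  have hSC : (XX hg hgeo hι).SC := px_sc hg hgeo hι rev_ close_ ins_
  have hL := h G A B g hg hgeo hι hA hB M hSC
  have hab' := field_ab' (hg := hg) (hgeo := hgeo) (hι := hι) M hSC hA
  have hab : ∀ x ∈ PA A B g, x ∈ PB A B g → x = 1 := fun x hx hx' =>
    hab' 1 x hx (by rw [one_mul, inv_one, mul_one]; exact hx')
  refine ⟨fun a _ i j h1 => pa_inj hι h1, fun b _ i h1 => pb_inj hι h1, ?_⟩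
  exact
    { ab := hab
      aa := field_aa (hg := hg) (hgeo := hgeo) (hι := hι) M hSC hA
      bb := field_bb (hg := hg) (hgeo := hgeo) (hι := hι) M hSC hA
      ab' := hab'
      e1 := H89.field_e1 (hg := hg) (hgeo := hgeo) (hι := hι) hA M hSC hab
      r3 := hL.r3
      t2 := field_t2 (hg := hg) (hgeo := hgeo) (hι := hι) M hSC hA
      e6 := hL.e6
      el := hL.el }

end

end Pool.Agent.ABA.B.H52
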