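import Pool.Agent.Helper17_ABA.Mask

/-! # Discs with one corner at the base (MP_d857f1_al, part B) -/

set_option autoImplicit false

namespace Pool.Agent.ABA.B.H52

open Pool.Agent.ABA.B Pool.Agent.ABA.B.TG Pool.Agent.ABA.B.H17

variable {V E : Type} {S : TG V E}

theorem ns_J (M : Mods) {e : E} {α : List E} {n : ℕ} {X Y : List E} {J I : List (List E)}
    (h : S.NS e α n X Y J I) : ∀ v ∈ J, 2 ≤ v.length := by
  induction h with
  | triv e => intro v hv; exact absurd hv (by simp)
  | @tb e e' e'' α' α'' n' n'' X' Y' X'' Y'' J' I' J'' I'' ht h1 h2 ih1 ih2 =>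
    intro v hv
    rcases List.mem_append.1 hv with hv | hv
    · exact ih1 v hv
    · rcases List.mem_cons.1 hv with rfl | hv
      · have a1 := (M.nsb _ _ _ _ _ _ _ _ _ _ h1).2.2.2.2.2.2.2.1.1
        have a2 := (M.nsb _ _ _ _ _ _ _ _ _ _ h2).2.2.2.2.2.2.1.1
        have b1 : 1 ≤ Y'.length := by
          cases Y' with
          | nil => simp at a1
          | cons => simp
        have b2 : 1 ≤ X''.length := by
          cases X'' with
          | nil => simp at a2
          | cons => simp
        rw [List.length_append, List.length_reverse]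
        omega
      · exact ih2 v hv
  | @ta e e' e'' α n X Y v J I ht h hα ih =>
    intro u hu
    exact ih u (List.mem_append_left _ hu)

/-- one corner at both ends of the root: a single triangle -/
theorem ns_22 (M : Mods) {e : E} {α : List E} {n : ℕ} {X Y : List E} {J I : List (List E)}
    (h : S.NS e α n X Y J I) (hX : X.length = 2) (hY : Y.length = 2) : α.length = 2 := by
  cases h with
  | triv e => simp at hX
  | @tb _ e' e'' α' α'' n' n'' X' Y' X'' Y'' J' I' J'' I'' ht h1 h2 =>
    obtain ⟨-, -, -, -, a5, a6, -⟩ := M.nsb _ _ _ _ _ _ _ _ _ _ h1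
    obtain ⟨-, -, -, -, b5, b6, -⟩ := M.nsb _ _ _ _ _ _ _ _ _ _ h2
    rw [List.length_cons] at hX hY
    have c1 : n' = 0 := by
      by_contra hc
      have := (a6 hc).1
      omega
    have c2 : n'' = 0 := by
      by_contra hc
      have := (b6 hc).2
      omega
    rw [(a5 c1).1, (b5 c2).1]
    rfl
  | @ta _ e' e'' _ n X Y v J I ht h hα =>
    obtain ⟨-, -, -, -, a5, a6, -⟩ := M.nsb _ _ _ _ _ _ _ _ _ _ h
    rw [List.length_cons] at hX
    have c1 : n = 0 := by
      by_contra hc
      have := (a6 hc).1
      omega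
    have h1 := (a5 c1).1
    have h2 : α = [] := by
      have h3 := congrArg List.length h1
      rw [List.length_append, List.length_singleton, List.length_singleton] at h3
      exact List.eq_nil_of_length_eq_zero (by omega)
    exact absurd h2 hα

/-- one corner at the target of the root and two corners at the neighbours: four letters -/
theorem ns_s2 (M : Mods) {e : E} {α : List E} {n : ℕ} {X Y : List E} {J I : List (List E)}
    (h : S.NS e α n X Y J I) (hY : Y.length = 2) (hX : X.length = 3)
    (hJ : ∀ v, (X :: J).getLast? = some v → v.length = 3) : α.length = 3 := by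
  cases h with
  | triv e => simp at hX
  | @tb _ e' e'' α' α'' n' n'' X' Y' X'' Y'' J' I' J'' I'' ht h1 h2 =>
    obtain ⟨-, -, -, b4, b5, b6, -⟩ := M.nsb _ _ _ _ _ _ _ _ _ _ h2
    rw [List.length_cons] at hX hY
    have c2 : n'' = 0 := by
      by_contra hc
      have := (b6 hc).2
      omega
    obtain ⟨d1, d2, d3⟩ := b5 c2
    subst d1 d2 d3
    have e1 : J'' = [] := by
      apply List.eq_nil_of_length_eq_zero
      simp only [List.length_singleton] at b4
      omega
    subst e1
    have h3 := hJ (Y'.reverse ++ [e'']) (by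
      rw [List.getLast?_cons, List.getLast?_append]
      simp)
    rw [List.length_append, List.length_reverse, List.length_singleton] at h3
    have h4 := ns_22 M h1 (by omega) (by omega)
    rw [List.length_append, h4]
    rfl
  | @ta _ e' e'' _ n X Y v J I ht h hα =>
    have h1 := ns_J M h v (by simp)
    rw [List.length_cons, List.length_reverse] at hY
    omega

/-- boundary data with everything: `DW`, and the special property for one corner at the base -/
theorem bdyN (M : Mods) (hSC : S.SC) (w : List E) (hcl : S.Cl w) (hpf : S.PF w)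
    (hw0 : w ≠ []) (hnb : ∀ e, w ≠ [S.inv e, e]) :
    ∃ (a : ℕ → E) (W : ℕ → List E) (I : List (List E)), Bd S w.length a W I ∧
      (∀ i (h : i < w.length), a i = w[i]) ∧ AreaRed S w W ∧ MaskRed S w W ∧
      ((W 0).length = 2 → (W 1).length = 3 → (W (w.length - 1)).length = 3 → w.length = 4) := by
  obtain ⟨e0, α, rfl⟩ : ∃ e0 α, w = e0 :: α := by
    cases w with
    | nil => exact absurd rfl hw0
    | cons e0 α => exact ⟨e0, α, rfl⟩
  obtain ⟨e, rfl⟩ : ∃ e, e0 = S.inv e := ⟨S.inv e0, by simp⟩
  obtain ⟨X, Y, J, I, hNS, a, W, hBd, ha, hA, hW0, hW1⟩ := bdyB M hSC e α hcl hpf hnb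
  obtain ⟨b1, b2, b3, b4, b5, b6, b7, b8, b9, b10, b11⟩ := M.nsb _ _ _ _ _ _ _ _ _ _ hNS
  refine ⟨a, W, I, hBd, ha, hA, ?_, ?_⟩
  swap
  · intro h0 h1 h2
    rw [hW0, List.length_reverse] at h0
    have h3 := hW1 0 (Nat.zero_le _)
    rw [List.getElem?_cons_zero, Option.some.injEq] at h3
    rw [← h3] at h1
    have h4 := ns_s2 M hNS h0 h1 (by
      intro v hv
      have h5 := hW1 J.length le_rfl
      rw [List.getLast?_eq_getElem?] at hv
      simp only [List.length_cons, Nat.add_sub_cancel] at hv
      rw [h5] at hv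
      rw [← Option.some.inj hv]
      rw [List.length_cons, ← b4, Nat.add_sub_cancel] at h2
      exact h2)
    rw [List.length_cons, h4]
  have hn : S.ar (S.inv e :: α) ≠ 0 := by
    intro h
    have h1 := (b5 h).1
    exact hnb e (by rw [h1])
  obtain ⟨f', f'', X0, Y0, hT, hX, hY, -⟩ := H56.root M.ins M.rot M.nsb hNS hn
  have hA2 := (M.area V E S hSC).2.1
  intro F μ hF hC hC0
  have hlen : (S.inv e :: α).length = α.length + 1 := rfl
  have hα0 : α.length ≠ 0 := by
    intro h
    exact b1 (List.eq_nil_of_length_eq_zero h)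
  have hF' : HF S F μ 1 α (X :: J) := by
    intro i b W' hb hW' hm
    have hi : i < α.length := (List.getElem?_eq_some_iff.1 hb).1
    have hb' : α[i] = b := (List.getElem?_eq_some_iff.1 hb).2
    have h1 := hF (i + 1) (by omega) (by rwa [show i + 1 = 1 + i by omega])
    rw [List.getElem_cons_succ, hb'] at h1
    have h2 := hW1 i (by omega)
    rw [hW'] at h2
    rw [Option.some.injEq] at h2
    rw [show 1 + i = i + 1 by omega, h2]
    exact h1
  have hC' : HC μ 1 J := by
    intro i v hv m1 m2
    have hi : i < J.length := (List.getElem?_eq_some_iff.1 hv).1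
    have h1 := hC (i + 1) (by omega) (by rwa [show i + 1 = 1 + i by omega])
      (by rwa [show i + 1 + 1 = 1 + i + 1 by omega])
    have h2 := hW1 (i + 1) (by omega)
    rw [List.getElem?_cons_succ, hv, Option.some.injEq] at h2
    rw [h2]
    exact h1
  obtain ⟨r1, r2, r3⟩ := mask_ns M.ins M.rot M.nsb hNS F μ 1 hF' hC' (Or.inl hn)
  have r3' := r3 hn
  rw [hlen, show α.length + 1 = 1 + α.length by omega, ct_add]
  by_cases hm : μ 0 = true
  · -- the root is masked
    have hF0 := hF 0 (by omega) hm
    rw [hW0, hY, List.getElem_cons_zero] at hF0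
    obtain ⟨hT0, l, hl⟩ := hF0
    have hl' : Y0.reverse ++ [S.inv f'', S.inv e] = l ++ [(F 0).1, S.inv e] := by
      rw [← hl]; simp
    have q1 := (last_two hl').1
    have q2 : S.inv f' = (F 0).2 := by
      have h3 := H56.tri1 hT
      rw [q1] at h3
      exact S.tri_uniq h3 hT0
    have s1 : μ 1 = true → X.length ≠ 2 := by
      intro m1
      have h6 := hC 0 (by omega) hm m1
      have h7 := hW1 0 (by omega)
      rw [List.getElem?_cons_zero, Option.some.injEq] at h7
      rw [h7]
      exact h6
    have s2 : μ (1 + J.length) = true → Y.length ≠ 2 := by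
      intro m1
      have h6 := hC0 (by
        rw [hlen]
        rw [show α.length + 1 - 1 = 1 + J.length by omega]
        exact m1) hm
      rw [hW0, List.length_reverse] at h6
      exact h6
    obtain ⟨t1, t2⟩ := r3' s1 s2 f' f'' hT ⟨X0, hX⟩
    · have h4 : rp F μ 0 (S.inv e :: α) = S.inv f'' :: S.inv f' :: rp F μ 1 α := by
        simp [rp, hm, q1, q2]
      have h5 : ct μ 0 1 = 1 := by simp [ct, hm]
      rw [h4, h5]
      have h6 := hA2 _ _ _ t2
      simp only [Nat.zero_add]
      omega
  · have h4 : rp F μ 0 (S.inv e :: α) = S.inv e :: rp F μ 1 α := by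
      simp [rp, hm]
    have h5 : ct μ 0 1 = 0 := by simp [ct, hm]
    rw [h4, h5]
    have h6 := hA2 _ _ _ r2
    simp only [Nat.zero_add]
    omega

end Pool.Agent.ABA.B.H52
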