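import Pool.Agent.Helper70_ABA.TripDefs
import Pool.Agent.Helper49_ABB.WalkSt

/-! # E6 for planes without common vertex: definitions and statements (MP_d857f1_al, part B)

Plan: /team-store/ABA_E6_h83.md (sections 1, 2) with the changes of helper52's message 07:15. -/

set_option autoImplicit false

namespace Pool.Agent.ABA.B.H52

open Knd Pool.Agent.ABA Pool.Agent.ABA.B Pool.Agent.ABA.B.TG Pool.Agent.ABA.B.H17
  Pool.Agent.ABA.B.H89 Pool.Agent.ABA.B.H49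

/-- value of a walk: three minus the number of corners -/
def val {E : Type} (W : List E) : ℤ := 4 - W.length

/-! ## words made of sides and legs -/

/-- sides `s i` from `xm i` to `xp i`, legs `d i` from `xp i` to `xm (i + 1)` -/
structure Cfg (V E : Type) where
  xm : ℕ → V
  xp : ℕ → V
  s : ℕ → List E
  d : ℕ → List E

namespace Cfg

variable {V E : Type} (C : Cfg V E)

/-- the segments `i, …, i + m - 1` -/
def wd : ℕ → ℕ → List E
  | _, 0 => []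
  | i, m + 1 => C.s i ++ (C.d i ++ wd (i + 1) m)

/-- position of `xm i` in the infinite word -/
def o : ℕ → ℕ
  | 0 => 0
  | i + 1 => o i + (C.s i).length + (C.d i).length

/-- position of `xp i` in the infinite word -/
def m (i : ℕ) : ℕ := C.o i + (C.s i).length

/-- the letters of the infinite word: letter `t` leads from position `t` to position `t + 1` -/
def lt [Inhabited E] (t : ℕ) : E := (C.wd 0 (t + 1)).getD t default

end Cfg

section

variable {G : Type} [Group G] {A B : Subgroup G} {g : G}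

instance : Inhabited (XE A B g) := ⟨eA .U 1⟩

variable (hg : ¬ IsABA A B g) (hgeo : Geo A B) (hι : Function.Injective (Pι A B g))

/-! ## hexagons -/

/-- The cyclic chain of planes of a relation of length six between the stabilizers of two planes at
distance `n ≥ 1`. (Indices modulo six: `c (i + 5)` is the plane before `c i`.) -/
structure Chn (c : ℕ → Car A B g) (ρ : ℕ → PP A B g) (n : ℕ) : Prop where
  pc : ∀ i, c (i + 6) = c i
  pρ : ∀ i, ρ (i + 6) = ρ i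
  pl : ∀ i, IsPl (c i)
  st : ∀ i, ρ i • c i = c i
  n1 : ∀ i, ρ i ≠ 1
  nx : ∀ i, ρ (i + 1) • c i = c (i + 2)
  ds : ∀ i, dCC hg hgeo hι (c i) (c (i + 1)) = n
  ps : 1 ≤ n

/-- hexagon: the sides are paths in the planes, the legs are paths of length `n` between consecutive
planes -/
structure Ok (c : ℕ → Car A B g) (n : ℕ) (C : Cfg (XV A B g) (XE A B g)) : Prop where
  pm : ∀ i, C.xm (i + 6) = C.xm i
  pp : ∀ i, C.xp (i + 6) = C.xp i
  ps : ∀ i, C.s (i + 6) = C.s i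
  pd : ∀ i, C.d (i + 6) = C.d i
  om : ∀ i, On (c i) (C.xm i)
  op : ∀ i, On (c i) (C.xp i)
  side : ∀ i, SideP hg hgeo hι (c i) (C.xm i) (C.xp i) (C.s i)
  leg : ∀ i, (XX hg hgeo hι).IsP (C.xp i) (C.d i) (C.xm (i + 1))
  len : ∀ i, (C.d i).length = n

/-- no backtracking in the sides (true for minimal hexagons) -/
def Nb (C : Cfg (XV A B g) (XE A B g)) : Prop :=
  ∀ i t, C.o i ≤ t → t + 1 < C.m i → C.lt (t + 1) ≠ xinv (C.lt t)

/-- `W t` (`b ≤ t ≤ e`) are the walks at the positions `t` of a minimal disc of the letters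
`b ≤ t < e` of the word of a minimal hexagon. In the case of a block the walks for `t = b` and
`t = e` are the walk at the base point. -/
structure Pc (c : ℕ → Car A B g) (C : Cfg (XV A B g) (XE A B g)) (b e : ℕ)
    (W : ℕ → List (XE A B g)) : Prop where
  /-- the triangle behind the letter `t`; it is not in the plane of a side, and the ends of legs
  cannot be moved -/
  edg : ∀ t, b ≤ t → t < e → ∃ f1 f2 l r, (XX hg hgeo hι).Tri (C.lt t) f1 f2 ∧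
    W t = l ++ [f1, C.lt t] ∧ W (t + 1) = xinv (C.lt t) :: xinv f2 :: r ∧
    (∀ i, C.o i ≤ t → t < C.m i → car f1 ≠ c i ∧ car f2 ≠ c i) ∧
    (∀ i, C.m i = t → car f1 ≠ c i) ∧
    (∀ i, C.o (i + 1) = t + 1 → car f2 ≠ c (i + 1))
  chain : ∀ t, b ≤ t → t ≤ e → (W t).IsChain (XX hg hgeo hι).Cor
  red : ∀ t, b ≤ t → t ≤ e → Red (W t)
  /-- at the inner vertices of legs there are at least three corners -/
  leg : ∀ i t, C.m i < t → t < C.o (i + 1) → b < t → t < e → 4 ≤ (W t).length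

/-- a pinch-free block with the letters `b ≤ t < e` -/
structure Blk (c : ℕ → Car A B g) (C : Cfg (XV A B g) (XE A B g)) (b e : ℕ)
    (W : ℕ → List (XE A B g)) : Prop where
  len : b + 2 ≤ e
  pc : Pc hg hgeo hι c C b e W
  per : W e = W b
  tot : 6 ≤ ∑ t ∈ Finset.Ico b e, val (W t)
  /-- one corner at the base and two corners at its neighbours: four letters -/
  s2 : (W b).length = 2 → (W (b + 1)).length = 3 → (W (e - 1)).length = 3 → e = b + 4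

/-- the whole word is pinch-free; the walks are periodic -/
structure Whl (c : ℕ → Car A B g) (C : Cfg (XV A B g) (XE A B g))
    (W : ℕ → List (XE A B g)) : Prop where
  pc : ∀ e, Pc hg hgeo hι c C 0 e W
  per : ∀ t, W (t + C.o 6) = W t
  tot : 6 ≤ ∑ t ∈ Finset.range (C.o 6), val (W t)
  totR : (6 : ℝ) ≤ ∑ t ∈ Finset.range (C.o 6), (3 - ow θR (W t))

/-! ## tips and flags -/

/-- the letter of the leg before the tip `t` at `xm t` (pointing away from the plane); `t ≥ 1` -/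
def eM (C : Cfg (XV A B g) (XE A B g)) (t : ℕ) : XE A B g := xinv (C.lt (C.o t - 1))

/-- the first letter of the leg after the tip `t` -/
def eP (C : Cfg (XV A B g) (XE A B g)) (t : ℕ) : XE A B g := C.lt (C.m t)

/-- total value of the tip `t` -/
def Tp (C : Cfg (XV A B g) (XE A B g)) (W : ℕ → List (XE A B g)) (t : ℕ) : ℤ :=
  ∑ j ∈ Finset.Icc (C.o t) (C.m t), val (W j)

/-- total value of the inner vertices of the leg `t` -/
def cs (C : Cfg (XV A B g) (XE A B g)) (W : ℕ → List (XE A B g)) (t : ℕ) : ℤ :=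
  ∑ j ∈ Finset.Ioo (C.m t) (C.o (t + 1)), val (W j)

/-- `e` is the first letter of a shortest path from `x` to `Q` -/
def Prj (Q : Car A B g) (x : XV A B g) (e : XE A B g) : Prop :=
  xsrc e = x ∧ dVC hg hgeo hι (xsrc (xinv e)) Q + 1 = dVC hg hgeo hι x Q

/-- the letter `eM` has a T-corner with its plane -/
def tcm (c : ℕ → Car A B g) (C : Cfg (XV A B g) (XE A B g)) (t : ℕ) : Prop :=
  ∃ μ, car μ = c t ∧ (XX hg hgeo hι).Cor (eM C t) μ

/-- the letter `eP` has a T-corner with its plane -/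
def tcp (c : ℕ → Car A B g) (C : Cfg (XV A B g) (XE A B g)) (t : ℕ) : Prop :=
  ∃ μ, car μ = c t ∧ (XX hg hgeo hι).Cor (eP C t) μ

/-- there is a second first letter of shortest paths from `xm t` to the plane before -/
def secm (c : ℕ → Car A B g) (C : Cfg (XV A B g) (XE A B g)) (t : ℕ) : Prop :=
  ∃ e₂, e₂ ≠ eM C t ∧ Prj hg hgeo hι (c (t + 5)) (C.xm t) e₂

/-- there is a second first letter of shortest paths from `xp t` to the plane after -/
def secp (c : ℕ → Car A B g) (C : Cfg (XV A B g) (XE A B g)) (t : ℕ) : Prop :=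
  ∃ e₂, e₂ ≠ eP C t ∧ Prj hg hgeo hι (c (t + 1)) (C.xp t) e₂

/-- tip of type M -/
def MTip (c : ℕ → Car A B g) (ρ : ℕ → PP A B g) (C : Cfg (XV A B g) (XE A B g))
    (W : ℕ → List (XE A B g)) (t : ℕ) : Prop :=
  C.s t = [] ∧ ρ t • C.xm t = C.xm t ∧ W (C.o t) = [eM C t, eP C t] ∧
  ∃ e', Prj hg hgeo hι (c (t + 5)) (C.xm t) e' ∧ (XX hg hgeo hι).Cor e' (eM C t) ∧
    eP C t = actE (ρ t) e' ∧
    ((kndE (eM C t) = um ∧ kndE e' = cp) ∨ (kndE (eM C t) = cp ∧ kndE e' = um) ∨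
      (kndE (eM C t) = vp ∧ kndE e' = cm) ∨ (kndE (eM C t) = cm ∧ kndE e' = vp))

/-- tip of type A -/
def ATip (c : ℕ → Car A B g) (ρ : ℕ → PP A B g) (C : Cfg (XV A B g) (XE A B g))
    (W : ℕ → List (XE A B g)) (t : ℕ) : Prop :=
  C.s t = [] ∧ ρ t • C.xm t = C.xm t ∧ eP C t = actE (ρ t) (eM C t) ∧
  ∃ f, W (C.o t) = [eM C t, f, eP C t] ∧ car f ≠ c t ∧ ow θR (W (C.o t)) = 2.1

end

/-! ## GEO: statements (helper83) -/

section

variable {G : Type} [Group G] {A B : Subgroup G} {g : G}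
variable (hg : ¬ IsABA A B g) (hgeo : Geo A B) (hι : Function.Injective (Pι A B g))

/-- two letters with the same end points are equal; letters between vertices of a plane are in the
plane -/
def AdjStmt : Prop :=
  (∀ e e' : XE A B g, xsrc e = xsrc e' → xsrc (xinv e) = xsrc (xinv e') → e = e') ∧
  (∀ (Q : Car A B g) (e : XE A B g), IsPl Q → On Q (xsrc e) → On Q (xsrc (xinv e)) → car e = Q)

/-- PROJ -/
def PrjStmt : Prop := ∀ (Q : Car A B g) (x : XV A B g) (e e' : XE A B g), IsPl Q →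
  Prj hg hgeo hι Q x e → Prj hg hgeo hι Q x e' → e = e' ∨ (XX hg hgeo hι).Cor e e'

/-- EDGE -/
def EdgeStmt : Prop := ∀ (Q : Car A B g) (h : XE A B g), IsPl Q →
  dVC hg hgeo hι (xsrc h) Q = dVC hg hgeo hι (xsrc (xinv h)) Q → 1 ≤ dVC hg hgeo hι (xsrc h) Q →
  ∃ f f', (XX hg hgeo hι).Tri h f f' ∧ Prj hg hgeo hι Q (xsrc h) f ∧
    Prj hg hgeo hι Q (xsrc (xinv h)) (xinv f')

/-- NSEG -/
def NsegStmt : Prop := ∀ (c Q : Car A B g) (x x' : XV A B g) (n : ℕ), IsPl c → IsPl Q → 1 ≤ n →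
  dCC hg hgeo hι c Q = n → On c x → On c x' → dVC hg hgeo hι x Q = n → dVC hg hgeo hι x' Q = n →
  x ≠ x' → ∃ h, car h = c ∧ xsrc h = x ∧ xsrc (xinv h) = x'

/-- STRIP -/
def StripStmt : Prop := ∀ (Q : Car A B g) (x y : XV A B g) (δ : List (XE A B g))
  (e' : XE A B g), IsPl Q → (XX hg hgeo hι).IsP x δ y → On Q y → δ.length = dVC hg hgeo hι x Q →
  (∀ l a b r, δ = l ++ a :: b :: r → ∀ n, (XX hg hgeo hι).Cor (xinv a) n →
    (XX hg hgeo hι).Cor n b → False) →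
  Prj hg hgeo hι Q x e' → δ.head? ≠ some e' → δ ≠ [] →
  ∃ a μ, δ.getLast? = some a ∧ car μ = Q ∧ (XX hg hgeo hι).Cor (xinv a) μ

end

/-! ## statements of the modules -/

section

variable {G : Type} [Group G] {A B : Subgroup G} {g : G}
variable (hg : ¬ IsABA A B g) (hgeo : Geo A B) (hι : Function.Injective (Pι A B g))

/-- SPUR (in module TIP0): the two legs at a tip with empty side start with different letters -/
def SpurStmt : Prop := ∀ (c : ℕ → Car A B g) (ρ : ℕ → PP A B g) (n : ℕ)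
  (C : Cfg (XV A B g) (XE A B g)), Chn hg hgeo hι c ρ n → Ok hg hgeo hι c n C → ∀ t,
  C.s (t + 1) = [] → eM C (t + 1) ≠ eP C (t + 1)

/-- HEX: a minimal hexagon; it is pinch-free or has two disjoint pinch-free blocks -/
def HexStmt : Prop := ∀ (c : ℕ → Car A B g) (ρ : ℕ → PP A B g) (n : ℕ), Chn hg hgeo hι c ρ n →
  ∃ C, Ok hg hgeo hι c n C ∧ Nb C ∧ ((∃ W, Whl hg hgeo hι c C W) ∨
    ∃ b e b' e' W W', Blk hg hgeo hι c C b e W ∧ Blk hg hgeo hι c C b' e' W' ∧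
      e ≤ b' ∧ e' ≤ b + C.o 6)

/-- the bounds at a tip (TIP0: empty side, TIP1: nonempty side) -/
def TipBd (c : ℕ → Car A B g) (ρ : ℕ → PP A B g) (C : Cfg (XV A B g) (XE A B g))
    (W : ℕ → List (XE A B g)) (t : ℕ) : Prop :=
  (tcm hg hgeo hι c C t → tcp hg hgeo hι c C t → Tp C W t ≤ -1) ∧
  (tcm hg hgeo hι c C t ∨ tcp hg hgeo hι c C t → Tp C W t ≤ 0) ∧
  Tp C W t ≤ 2 ∧
  (Tp C W t = 2 → MTip hg hgeo hι c ρ C W t) ∧
  (Tp C W t = 1 → ATip c ρ C W t ∨ (secm hg hgeo hι c C t ∧ secp hg hgeo hι c C t))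

/-- TIP0 -/
def Tip0Stmt : Prop := ∀ (c : ℕ → Car A B g) (ρ : ℕ → PP A B g) (n : ℕ)
  (C : Cfg (XV A B g) (XE A B g)) (b e : ℕ) (W : ℕ → List (XE A B g)),
  Chn hg hgeo hι c ρ n → Ok hg hgeo hι c n C → Nb C → Pc hg hgeo hι c C b e W → ∀ t,
  b < C.o (t + 1) → C.m (t + 1) < e → C.s (t + 1) = [] → TipBd hg hgeo hι c ρ C W (t + 1)

/-- TIP1 -/
def Tip1Stmt : Prop := ∀ (c : ℕ → Car A B g) (ρ : ℕ → PP A B g) (n : ℕ)
  (C : Cfg (XV A B g) (XE A B g)) (b e : ℕ) (W : ℕ → List (XE A B g)),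
  Chn hg hgeo hι c ρ n → Ok hg hgeo hι c n C → Nb C → Pc hg hgeo hι c C b e W → ∀ t,
  b < C.o (t + 1) → C.m (t + 1) < e → C.s (t + 1) ≠ [] → TipBd hg hgeo hι c ρ C W (t + 1)

/-- FLAT: the vertices of nonempty sides -/
def FlatStmt : Prop := ∀ (c : ℕ → Car A B g) (ρ : ℕ → PP A B g) (n : ℕ)
  (C : Cfg (XV A B g) (XE A B g)) (b e : ℕ) (W : ℕ → List (XE A B g)),
  Chn hg hgeo hι c ρ n → Ok hg hgeo hι c n C → Nb C → Pc hg hgeo hι c C b e W →
  (∀ i t, C.o i < t → t < C.m i → b < t → t < e → val (W t) ≤ -2) ∧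
  (∀ t, C.o t < C.m t → b < C.m t → C.m t < e →
    val (W (C.m t)) ≤ 1 ∧ (tcp hg hgeo hι c C t → val (W (C.m t)) ≤ -1)) ∧
  (∀ t, C.o (t + 1) < C.m (t + 1) → b < C.o (t + 1) → C.o (t + 1) < e →
    val (W (C.o (t + 1))) ≤ 1 ∧ (tcm hg hgeo hι c C (t + 1) → val (W (C.o (t + 1))) ≤ -1))

/-- SIDE: the legs -/
def SideStmt : Prop := ∀ (c : ℕ → Car A B g) (ρ : ℕ → PP A B g) (n : ℕ)
  (C : Cfg (XV A B g) (XE A B g)) (b e : ℕ) (W : ℕ → List (XE A B g)),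
  Chn hg hgeo hι c ρ n → Ok hg hgeo hι c n C → Nb C → Pc hg hgeo hι c C b e W → ∀ t,
  b < C.m t → C.o (t + 1) < e →
  (cs C W t = 0 → secp hg hgeo hι c C t → tcm hg hgeo hι c C (t + 1)) ∧
  (cs C W t = 0 → secm hg hgeo hι c C (t + 1) → tcp hg hgeo hι c C t)

/-- MLOC (claim M) -/
def MlocStmt : Prop := ∀ (c : ℕ → Car A B g) (ρ : ℕ → PP A B g) (n : ℕ)
  (C : Cfg (XV A B g) (XE A B g)) (b e : ℕ) (W : ℕ → List (XE A B g)),
  Chn hg hgeo hι c ρ n → Ok hg hgeo hι c n C → Nb C → Pc hg hgeo hι c C b e W → ∀ t,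
  2 ≤ n → b < C.m t → C.o (t + 2) < e → MTip hg hgeo hι c ρ C W (t + 1) →
  -1 ≤ cs C W t → -1 ≤ cs C W (t + 1) → ¬ tcp hg hgeo hι c C t → ¬ tcm hg hgeo hι c C (t + 2) →
  False

/-- M0: all tips of type A, all legs straight -/
def M0Stmt : Prop := ∀ (c : ℕ → Car A B g) (ρ : ℕ → PP A B g) (n : ℕ)
  (C : Cfg (XV A B g) (XE A B g)) (W : ℕ → List (XE A B g)),
  Chn hg hgeo hι c ρ n → Ok hg hgeo hι c n C → Nb C → Whl hg hgeo hι c C W →
  (∀ t, ATip c ρ C W (t + 1)) → (∀ t, cs C W (t + 1) = 0) →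
  (∀ t, ¬ tcm hg hgeo hι c C (t + 1)) → (∀ t, ¬ tcp hg hgeo hι c C (t + 1)) → False

end

/-! ## CNT: the count (pure arithmetic) -/

/-- the local bounds for the values `v t`, `b < t < e` -/
structure Cnt (o m : ℕ → ℕ) (b e : ℕ) (v : ℕ → ℤ) (M Ap tcm tcp secm secp : ℕ → Prop) : Prop where
  om : ∀ i, o i ≤ m i ∧ m i < o (i + 1)
  flat : ∀ i t, o i < t → t < m i → b < t → t < e → v t ≤ -2
  leg : ∀ i t, m i < t → t < o (i + 1) → b < t → t < e → v t ≤ 0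
  pe : ∀ i, o i < m i → b < m i → m i < e → v (m i) ≤ 1 ∧ (tcp i → v (m i) ≤ -1)
  me : ∀ i, o (i + 1) < m (i + 1) → b < o (i + 1) → o (i + 1) < e →
    v (o (i + 1)) ≤ 1 ∧ (tcm (i + 1) → v (o (i + 1)) ≤ -1)
  t1 : ∀ i, b < o (i + 1) → m (i + 1) < e → tcm (i + 1) → tcp (i + 1) →
    ∑ j ∈ Finset.Icc (o (i + 1)) (m (i + 1)), v j ≤ -1
  t2 : ∀ i, b < o (i + 1) → m (i + 1) < e → tcm (i + 1) ∨ tcp (i + 1) →
    ∑ j ∈ Finset.Icc (o (i + 1)) (m (i + 1)), v j ≤ 0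
  t3 : ∀ i, b < o (i + 1) → m (i + 1) < e → ∑ j ∈ Finset.Icc (o (i + 1)) (m (i + 1)), v j ≤ 2
  t4 : ∀ i, b < o (i + 1) → m (i + 1) < e → ∑ j ∈ Finset.Icc (o (i + 1)) (m (i + 1)), v j = 2 →
    M (i + 1)
  t5 : ∀ i, b < o (i + 1) → m (i + 1) < e → ∑ j ∈ Finset.Icc (o (i + 1)) (m (i + 1)), v j = 1 →
    Ap (i + 1) ∨ (secm (i + 1) ∧ secp (i + 1))
  Ms : ∀ i, M (i + 1) → secm (i + 1) ∧ secp (i + 1)
  s2 : ∀ i, b < m i → o (i + 1) < e → ∑ j ∈ Finset.Ioo (m i) (o (i + 1)), v j = 0 → secp i →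
    tcm (i + 1)
  s3 : ∀ i, b < m i → o (i + 1) < e → ∑ j ∈ Finset.Ioo (m i) (o (i + 1)), v j = 0 →
    secm (i + 1) → tcp i

/-- the count for the whole word -/
def CntWholeStmt : Prop := ∀ (o m : ℕ → ℕ) (v : ℕ → ℤ) (M Ap tcm tcp secm secp : ℕ → Prop),
  o 0 = 0 → (∀ i, o (i + 6) = o i + o 6) → (∀ i, m (i + 6) = m i + o 6) →
  (∀ e, Cnt o m 0 e v M Ap tcm tcp secm secp) →
  (∀ i, tcm (i + 7) ↔ tcm (i + 1)) → (∀ i, tcp (i + 7) ↔ tcp (i + 1)) →
  (∀ t, v (t + o 6) = v t) → 6 ≤ ∑ t ∈ Finset.range (o 6), v t →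
  (∃ i, M (i + 2) ∧ ∑ j ∈ Finset.Ioo (m (i + 1)) (o (i + 2)), v j = -1 ∧
    ∑ j ∈ Finset.Ioo (m (i + 2)) (o (i + 3)), v j = -1 ∧ ¬ tcp (i + 1) ∧ ¬ tcm (i + 3)) ∨
  (∀ i, Ap (i + 1) ∧ ∑ j ∈ Finset.Ioo (m (i + 1)) (o (i + 2)), v j = 0 ∧ ¬ tcm (i + 1) ∧
    ¬ tcp (i + 1))

/-- the count for two disjoint blocks -/
def CntBlockStmt : Prop := ∀ (o m : ℕ → ℕ) (b e b' e' : ℕ) (v v' : ℕ → ℤ)
  (M M' Ap Ap' tcm tcp secm secp : ℕ → Prop),
  o 0 = 0 → (∀ i, o (i + 6) = o i + o 6) → (∀ i, m (i + 6) = m i + o 6) →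
  Cnt o m b e v M Ap tcm tcp secm secp → Cnt o m b' e' v' M' Ap' tcm tcp secm secp →
  b < e → b' < e' → e ≤ b' → e' ≤ b + o 6 →
  4 ≤ ∑ t ∈ Finset.Ioo b e, v t → 4 ≤ ∑ t ∈ Finset.Ioo b' e', v' t →
  ∑ t ∈ Finset.Ioo b e, v t = 4 ∧ ∃ i,
    ((b < o (i + 1) ∧ m (i + 3) < e ∧ M (i + 2) ∧ ∑ j ∈ Finset.Ioo (m (i + 1)) (o (i + 2)), v j = -1 ∧
        ∑ j ∈ Finset.Ioo (m (i + 2)) (o (i + 3)), v j = -1 ∧ ¬ tcp (i + 1) ∧ ¬ tcm (i + 3)) ∨
      (o i ≤ b ∧ m i = b + 1 ∧ e = o (i + 3) + 1 ∧ v (m i) = 1 ∧ v (o (i + 3)) = 1))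

end Pool.Agent.ABA.B.H52
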