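import Pool.Agent.Helper52_ABB.E6Defs

/-! # E6 for planes without common vertex: statements for the assembly (MP_d857f1_al, part B) -/

set_option autoImplicit false

namespace Pool.Agent.ABA.B.H52

open Knd Pool.Agent.ABA Pool.Agent.ABA.B Pool.Agent.ABA.B.TG Pool.Agent.ABA.B.H17
  Pool.Agent.ABA.B.H89 Pool.Agent.ABA.B.H49

variable {G : Type} [Group G] {A B : Subgroup G} {g : G}
variable (hg : ¬ IsABA A B g) (hgeo : Geo A B) (hι : Function.Injective (Pι A B g))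

/-- CHN: the chain of planes of a relation of length six -/
def ChnStmt : Prop := ∀ (h x₁ y₁ x₂ y₂ x₃ y₃ : PP A B g), x₁ ∈ PA A B g → y₁ ∈ PA A B g →
  x₂ ∈ PA A B g → y₂ ∈ PA A B g → x₃ ∈ PA A B g → y₃ ∈ PA A B g →
  x₁ ≠ 1 → y₁ ≠ 1 → x₂ ≠ 1 → y₂ ≠ 1 → x₃ ≠ 1 → y₃ ≠ 1 →
  x₁ * (h * y₁ * h⁻¹) * x₂ * (h * y₂ * h⁻¹) * x₃ * (h * y₃ * h⁻¹) = 1 →
  (∀ v : XV A B g, On (plane 1) v → ¬ On (plane h) v) →
  ∃ c ρ n, Chn hg hgeo hι c ρ n

/-- E6 for planes without common vertex -/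
def E6FarStmt : Prop := ∀ h : PP A B g,
  (∀ v : XV A B g, On (plane 1) v → ¬ On (plane h) v) → E6 (PA A B g) h

end Pool.Agent.ABA.B.H52
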