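import Pool.Agent.Helper52_ABB.HexLib
import Pool.Agent.Helper24_ABA.MLocG

/-! # E6 for planes without common vertex: the assembly (MP_d857f1_al, part B) -/

set_option autoImplicit false

namespace Pool.Agent.ABA.B.H52

open Knd Pool.Agent.ABA Pool.Agent.ABA.B Pool.Agent.ABA.B.TG Pool.Agent.ABA.B.H17
  Pool.Agent.ABA.B.H89 Pool.Agent.ABA.B.H49

section

variable {G : Type} [Group G] {A B : Subgroup G} {g : G}
variable {hg : ¬ IsABA A B g} {hgeo : Geo A B} {hι : Function.Injective (Pι A B g)}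
variable {c : ℕ → Car A B g} {ρ : ℕ → PP A B g} {n : ℕ} {C : Cfg (XV A B g) (XE A B g)}

/-- the flags are periodic -/
theorem tcm_per (hc : Chn hg hgeo hι c ρ n) (h : Ok hg hgeo hι c n C) (i : ℕ) :
    tcm hg hgeo hι c C (i + 7) ↔ tcm hg hgeo hι c C (i + 1) := by
  have hn := hc.ps
  have hp := h.pos hn
  have e1 : C.o (i + 7) = C.o (i + 1) + C.o 6 := h.per.o (i + 1)
  have e2 := hp.m_lt i
  have e3 : eM C (i + 7) = eM C (i + 1) := by
    unfold eM
    rw [e1, show C.o (i + 1) + C.o 6 - 1 = (C.o (i + 1) - 1) + C.o 6 by omega, h.per.lt hp]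
  have e4 : c (i + 7) = c (i + 1) := hc.pc (i + 1)
  unfold tcm
  rw [e3, e4]

theorem tcp_per (hc : Chn hg hgeo hι c ρ n) (h : Ok hg hgeo hι c n C) (i : ℕ) :
    tcp hg hgeo hι c C (i + 7) ↔ tcp hg hgeo hι c C (i + 1) := by
  have hn := hc.ps
  have hp := h.pos hn
  have e1 : C.m (i + 7) = C.m (i + 1) + C.o 6 := h.per.m (i + 1)
  have e3 : eP C (i + 7) = eP C (i + 1) := by
    unfold eP
    rw [e1, h.per.lt hp]
  have e4 : c (i + 7) = c (i + 1) := hc.pc (i + 1)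
  unfold tcp
  rw [e3, e4]

/-- at a tip of type M there are second first letters on both sides -/
theorem mtip_sec (hc : Chn hg hgeo hι c ρ n) (h : Ok hg hgeo hι c n C)
    {W : ℕ → List (XE A B g)} {i : ℕ} (hM : MTip hg hgeo hι c ρ C W (i + 1)) :
    secm hg hgeo hι c C (i + 1) ∧ secp hg hgeo hι c C (i + 1) := by
  obtain ⟨hs, hr, -, e', h1, h2, h3, -⟩ := hM
  have hne : e' ≠ eM C (i + 1) := cor_ne h2
  refine ⟨⟨e', hne, h1⟩, actE (ρ (i + 1)) (eM C (i + 1)), ?_, ?_⟩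
  · rw [h3]
    intro he
    exact hne (actE_inj _ he).symm
  · have h4 := H24.prj_act (ρ (i + 1)) (eM_prj hc h i)
    have h5 : C.xp (i + 1) = C.xm (i + 1) := by
      have := (h.side (i + 1)).1
      rw [hs] at this
      exact this.symm
    rw [hc.nx i, hr] at h4
    rw [h5]
    exact h4

/-- the local bounds -/
theorem cnt_of (hT0 : Tip0Stmt hg hgeo hι) (hT1 : Tip1Stmt hg hgeo hι)
    (hF : FlatStmt hg hgeo hι) (hSd : SideStmt hg hgeo hι)
    (hc : Chn hg hgeo hι c ρ n) (h : Ok hg hgeo hι c n C) (hN : Nb C)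
    {b e : ℕ} {W : ℕ → List (XE A B g)} (hP : Pc hg hgeo hι c C b e W) :
    Cnt C.o C.m b e (fun t => val (W t)) (MTip hg hgeo hι c ρ C W) (ATip c ρ C W)
      (tcm hg hgeo hι c C) (tcp hg hgeo hι c C) (secm hg hgeo hι c C)
      (secp hg hgeo hι c C) := by
  have hp := h.pos hc.ps
  obtain ⟨f1, f2, f3⟩ := hF c ρ n C b e W hc h hN hP
  have hT : ∀ t, b < C.o (t + 1) → C.m (t + 1) < e → TipBd hg hgeo hι c ρ C W (t + 1) := by
    intro t h1 h2
    by_cases hs : C.s (t + 1) = []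
    · exact hT0 c ρ n C b e W hc h hN hP t h1 h2 hs
    · exact hT1 c ρ n C b e W hc h hN hP t h1 h2 hs
  have hS := hSd c ρ n C b e W hc h hN hP
  refine ⟨fun i => ⟨C.o_le_m i, hp.m_lt i⟩, f1, ?_, f2, f3, fun i h1 h2 => (hT i h1 h2).1 ,
    fun i h1 h2 => (hT i h1 h2).2.1, fun i h1 h2 => (hT i h1 h2).2.2.1,
    fun i h1 h2 => (hT i h1 h2).2.2.2.1, fun i h1 h2 => (hT i h1 h2).2.2.2.2,
    fun i hM => mtip_sec hc h hM, fun i h1 h2 => (hS i h1 h2).1, fun i h1 h2 => (hS i h1 h2).2⟩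
  intro i t h1 h2 h3 h4
  have := hP.leg i t h1 h2 h3 h4
  unfold val
  omega

/-- the case of two blocks -/
theorem blk_false (hCB : CntBlockStmt) (hT0 : Tip0Stmt hg hgeo hι) (hT1 : Tip1Stmt hg hgeo hι)
    (hF : FlatStmt hg hgeo hι) (hSd : SideStmt hg hgeo hι) (hMl : MlocStmt hg hgeo hι)
    (hc : Chn hg hgeo hι c ρ n) (h : Ok hg hgeo hι c n C) (hN : Nb C)
    {b e b' e' : ℕ} {W W' : ℕ → List (XE A B g)} (hB : Blk hg hgeo hι c C b e W)
    (hB' : Blk hg hgeo hι c C b' e' W') (h1 : e ≤ b') (h2 : e' ≤ b + C.o 6) : False := by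
  have hp := h.pos hc.ps
  have key : ∀ {b e : ℕ} {W : ℕ → List (XE A B g)}, Blk hg hgeo hι c C b e W →
      val (W b) ≤ 2 ∧ ∑ t ∈ Finset.Ico b e, val (W t) = val (W b) +
        ∑ t ∈ Finset.Ioo b e, val (W t) := by
    intro b e W hB
    have hbe : b < e := by have := hB.len; omega
    constructor
    · obtain ⟨f1', f2', l, r, -, hw, -⟩ := hB.pc.edg b le_rfl hbe
      rw [hw]
      simp only [val, List.length_append, List.length_cons, List.length_nil]
      push_cast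
      omega
    · rw [← Finset.Ioo_insert_left hbe, Finset.sum_insert (by simp)]
  obtain ⟨k1, k2⟩ := key hB
  obtain ⟨k1', k2'⟩ := key hB'
  have t1 := hB.tot
  have t2 := hB'.tot
  obtain ⟨r1, i, r2 | r2⟩ := hCB C.o C.m b e b' e' (fun t => val (W t)) (fun t => val (W' t))
    (MTip hg hgeo hι c ρ C W) (MTip hg hgeo hι c ρ C W') (ATip c ρ C W) (ATip c ρ C W')
    (tcm hg hgeo hι c C) (tcp hg hgeo hι c C) (secm hg hgeo hι c C) (secp hg hgeo hι c C)
    rfl h.per.o h.per.m (cnt_of hT0 hT1 hF hSd hc h hN hB.pc) (cnt_of hT0 hT1 hF hSd hc h hN hB'.pc)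
    (by have := hB.len; omega) (by have := hB'.len; omega) h1 h2 (by omega) (by omega)
  · obtain ⟨a1, a2, a3, a4, a5, a6, a7⟩ := r2
    have o1 := h.o_succ (i + 1)
    have hn2 : 2 ≤ n := by
      by_contra hlt
      have hn1 : n = 1 := by have := hc.ps; omega
      have : Finset.Ioo (C.m (i + 1)) (C.o (i + 2)) = ∅ := by
        ext j
        simp only [Finset.mem_Ioo, Finset.notMem_empty, iff_false]
        have o2 : C.o (i + 2) = C.m (i + 1) + n := o1
        omega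
      rw [this] at a4
      simp at a4
    have m1 := C.o_le_m (i + 1)
    have m3 := C.o_le_m (i + 3)
    exact hMl c ρ n C b e W hc h hN hB.pc (i + 1) hn2 (by omega) (by
      show C.o (i + 3) < e
      omega) a3 (by
      show -1 ≤ ∑ j ∈ Finset.Ioo (C.m (i + 1)) (C.o (i + 2)), val (W j)
      rw [a4]) (by
      show -1 ≤ ∑ j ∈ Finset.Ioo (C.m (i + 2)) (C.o (i + 3)), val (W j)
      rw [a5]) a6 a7
  · obtain ⟨a1, a2, a3, a4, a5⟩ := r2
    have hb2 : (W b).length = 2 := by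
      have : 2 ≤ val (W b) := by omega
      unfold val at this k1
      omega
    have l1 : (W (b + 1)).length = 3 := by
      have : val (W (C.m i)) = 1 := a4
      rw [a2] at this
      unfold val at this
      omega
    have l2 : (W (e - 1)).length = 3 := by
      have : val (W (C.o (i + 3))) = 1 := a5
      rw [show C.o (i + 3) = e - 1 by omega] at this
      unfold val at this
      omega
    have he := hB.s2 hb2 l1 l2
    have q1 := hp.m_lt i
    have q2 : C.o (i + 1) < C.o (i + 2) := hp.o_lt (i + 1)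
    have q3 : C.o (i + 2) < C.o (i + 3) := hp.o_lt (i + 2)
    omega

/-- the case of the whole word -/
theorem whl_false (hCW : CntWholeStmt) (hT0 : Tip0Stmt hg hgeo hι) (hT1 : Tip1Stmt hg hgeo hι)
    (hF : FlatStmt hg hgeo hι) (hSd : SideStmt hg hgeo hι) (hMl : MlocStmt hg hgeo hι)
    (hM0 : M0Stmt hg hgeo hι)
    (hc : Chn hg hgeo hι c ρ n) (h : Ok hg hgeo hι c n C) (hN : Nb C)
    {W : ℕ → List (XE A B g)} (hW : Whl hg hgeo hι c C W) : False := by
  have hp := h.pos hc.ps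
  rcases hCW C.o C.m (fun t => val (W t))
    (MTip hg hgeo hι c ρ C W) (ATip c ρ C W)
    (tcm hg hgeo hι c C) (tcp hg hgeo hι c C) (secm hg hgeo hι c C) (secp hg hgeo hι c C)
    rfl h.per.o h.per.m (fun e => cnt_of hT0 hT1 hF hSd hc h hN (hW.pc e))
    (tcm_per hc h) (tcp_per hc h) (fun t => by simp only [hW.per]) hW.tot with ⟨i, r⟩ | r
  · obtain ⟨a3, a4, a5, a6, a7⟩ := r
    have o1 := h.o_succ (i + 1)
    have hn2 : 2 ≤ n := by
      by_contra hlt
      have hn1 : n = 1 := by have := hc.ps; omega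
      have : Finset.Ioo (C.m (i + 1)) (C.o (i + 2)) = ∅ := by
        ext j
        simp only [Finset.mem_Ioo, Finset.notMem_empty, iff_false]
        have o2 : C.o (i + 2) = C.m (i + 1) + n := o1
        omega
      rw [this] at a4
      simp at a4
    have m0 := hp.m_lt i
    have m1 := C.o_le_m (i + 1)
    exact hMl c ρ n C 0 (C.o (i + 3) + 1) W hc h hN (hW.pc _) (i + 1) hn2 (by omega) (by
      show C.o (i + 3) < C.o (i + 3) + 1
      omega) a3 (by
      show -1 ≤ ∑ j ∈ Finset.Ioo (C.m (i + 1)) (C.o (i + 2)), val (W j)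
      rw [a4]) (by
      show -1 ≤ ∑ j ∈ Finset.Ioo (C.m (i + 2)) (C.o (i + 3)), val (W j)
      rw [a5]) a6 a7
  · exact hM0 c ρ n C W hc h hN hW (fun t => (r t).1) (fun t => (r t).2.1)
      (fun t => (r t).2.2.1) (fun t => (r t).2.2.2)

/-- E6 for planes without common vertex -/
theorem far_of (hCh : ChnStmt hg hgeo hι) (hH : HexStmt hg hgeo hι) (hCW : CntWholeStmt)
    (hCB : CntBlockStmt) (hT0 : Tip0Stmt hg hgeo hι) (hT1 : Tip1Stmt hg hgeo hι)
    (hF : FlatStmt hg hgeo hι) (hSd : SideStmt hg hgeo hι) (hMl : MlocStmt hg hgeo hι)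
    (hM0 : M0Stmt hg hgeo hι) : E6FarStmt (A := A) (B := B) (g := g) := by
  intro h hv x₁ hx₁ y₁ hy₁ x₂ hx₂ y₂ hy₂ x₃ hx₃ y₃ hy₃ n1 n2 n3 n4 n5 n6 he
  obtain ⟨c, ρ, n, hc⟩ := hCh h x₁ y₁ x₂ y₂ x₃ y₃ hx₁ hy₁ hx₂ hy₂ hx₃ hy₃ n1 n2 n3 n4 n5 n6 he hv
  obtain ⟨C, hO, hN, ⟨W, hW⟩ | ⟨b, e, b', e', W, W', hB, hB', h1, h2⟩⟩ := hH c ρ n hc
  · exact whl_false hCW hT0 hT1 hF hSd hMl hM0 hc hO hN hW
  · exact blk_false hCB hT0 hT1 hF hSd hMl hc hO hN hB hB' h1 h2

end

end Pool.Agent.ABA.B.H52
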