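import Pool.Agent.Helper52_ABB.HexLoc
import Pool.Agent.Helper52_ABB.Disc
import Pool.Agent.Helper83_ABA.Push

/-! # The module HEX: a minimal hexagon is pinch-free or has two blocks (MP_d857f1_al, part B) -/

set_option autoImplicit false

namespace Pool.Agent.ABA.B.H52

open Knd Pool.Agent.ABA Pool.Agent.ABA.B Pool.Agent.ABA.B.TG Pool.Agent.ABA.B.H17
  Pool.Agent.ABA.B.H89 Pool.Agent.ABA.B.H49

section

variable {G : Type} [Group G] {A B : Subgroup G} {g : G}
variable {hg : ¬ IsABA A B g} {hgeo : Geo A B} {hι : Function.Injective (Pι A B g)}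
variable {c : ℕ → Car A B g} {ρ : ℕ → PP A B g} {n : ℕ} {C : Cfg (XV A B g) (XE A B g)}

/-- a pinch-free piece of the cyclic word which can be cut off without loss of area -/
structure Ad (hg : ¬ IsABA A B g) (hgeo : Geo A B) (hι : Function.Injective (Pι A B g))
    (C : Cfg (XV A B g) (XE A B g)) (b L : ℕ) : Prop where
  L1 : 1 ≤ L
  LN : L ≤ C.o 6
  cl : (XX hg hgeo hι).Cl (C.sg b L)
  cl' : (XX hg hgeo hι).Cl (C.sg (b + L) (C.o 6 - L))
  add : (XX hg hgeo hι).ar (C.sg 0 (C.o 6)) =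
    (XX hg hgeo hι).ar (C.sg b L) + (XX hg hgeo hι).ar (C.sg (b + L) (C.o 6 - L))
  pf : (XX hg hgeo hι).PF (C.sg b L)

/-- the new letters at a site are a path -/
theorem rep_path {V E : Type} {S : TG V E} {a b : E} {W R : List E} (h : H83.Rep S a b W R) :
    S.IsP (S.src a) R (S.tgt b) := by
  cases h with
  | one h1 h2 =>
    refine ⟨?_, ?_⟩
    · have := Tri.mid' h2
      rw [this, tgt_inv]
    · exact Tri.tgt' h2
  | two h1 h2 h3 =>
    refine ⟨Tri.src' h2, ?_, Tri.tgt' h3⟩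
    rw [Tri.mid' h3]
    have := Tri.mid' h2
    rw [src_inv] at this
    exact this

section

variable (M : Mods) (hSC : (XX hg hgeo hι).SC)

include M hSC in
/-- a replacement in a piece -/
theorem Ad.blk_le (hc : Chn hg hgeo hι c ρ n) (h : MinC hg hgeo hι c n C) {b L : ℕ}
    (ha : Ad hg hgeo hι C b L) {t r : ℕ} {R : List (XE A B g)} (h1 : b ≤ t) (h2 : t + r ≤ b + L)
    (hR : (XX hg hgeo hι).IsP (xsrc (C.lt t)) R (xsrc (C.lt (t + r)))) :
    (XX hg hgeo hι).ar (R ++ C.sg (t + r) (C.o 6 - r)) ≤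
      (XX hg hgeo hι).ar (C.sg b (t - b) ++ R ++ C.sg (t + r) (b + L - t - r)) +
        (XX hg hgeo hι).ar (C.sg (b + L) (C.o 6 - L)) := by
  have hn := hc.ps
  have hLN := ha.LN
  have e1 := h.ok.ar_rep M hSC hn (a := b) h1 (by omega) hR
  have e2 := h.ok.cl_rep hn (a := b) h1 (by omega) hR
  have e3 : C.sg (t + r) (b + C.o 6 - t - r) =
      C.sg (t + r) (b + L - t - r) ++ C.sg (b + L) (C.o 6 - L) := by
    rw [show b + C.o 6 - t - r = (b + L - t - r) + (C.o 6 - L) by omega, Cfg.sg_add,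
      show t + r + (b + L - t - r) = b + L by omega]
  rw [← e1, e3, ← List.append_assoc]
  rw [e3, ← List.append_assoc] at e2
  have e4 := (M.area _ _ _ hSC).2.2.2.2.1 (C.sg b (t - b) ++ R ++ C.sg (t + r) (b + L - t - r)) []
    (C.sg (b + L) (C.o 6 - L)) (by rw [List.append_nil]; exact e2) ha.cl'
  rw [List.append_nil, List.append_nil] at e4
  exact e4

/-- the boundary data of a piece -/
structure PD (hg : ¬ IsABA A B g) (hgeo : Geo A B) (hι : Function.Injective (Pι A B g))
    (C : Cfg (XV A B g) (XE A B g)) (b L : ℕ) (a : ℕ → XE A B g) (W' : ℕ → List (XE A B g))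
    (I : List (List (XE A B g))) : Prop where
  bd : Bd (XX hg hgeo hι) L a W' I
  get : ∀ i, i < L → a i = C.lt (b + i)
  red : AreaRed (XX hg hgeo hι) (C.sg b L) W'
  mask : MaskRed (XX hg hgeo hι) (C.sg b L) W'
  s2 : (W' 0).length = 2 → (W' 1).length = 3 → (W' (L - 1)).length = 3 → L = 4

include M hSC in
theorem Ad.pd (hnbk : ∀ t, C.lt (t + 1) ≠ xinv (C.lt t)) {b L : ℕ}
    (ha : Ad hg hgeo hι C b L) : ∃ a W' I, PD hg hgeo hι C b L a W' I := by
  have hL := ha.L1
  obtain ⟨a, W, I, h1, h2, h3, h4, h5⟩ := bdyN M hSC (C.sg b L) ha.cl ha.pf (by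
    intro he
    have := congrArg List.length he
    simp at this
    omega) (by
    intro e he
    have hl := congrArg List.length he
    simp only [Cfg.sg_length, List.length_cons, List.length_nil] at hl
    subst hl
    rw [show (0 + 1 + 1 : ℕ) = 1 + 1 by rfl, Cfg.sg_succ, Cfg.sg_one] at he
    simp only [List.cons.injEq, and_true] at he
    obtain ⟨e1, e2⟩ := he
    apply hnbk b
    rw [e2, e1]
    exact ((XX hg hgeo hι).inv_inv e).symm)
  rw [Cfg.sg_length] at h1 h5
  refine ⟨a, W, I, h1, ?_, h3, h4, h5⟩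
  intro i hi
  rw [h2 i (by simpa using hi), Cfg.sg_get]

include M hSC in
/-- the triangle behind a letter of a piece -/
theorem PD.edg (hc : Chn hg hgeo hι c ρ n) (h : MinC hg hgeo hι c n C) {b L : ℕ}
    (ha : Ad hg hgeo hι C b L) {a : ℕ → XE A B g} {W' : ℕ → List (XE A B g)}
    {I : List (List (XE A B g))} (hp : PD hg hgeo hι C b L a W' I) {t : ℕ} (h1 : b ≤ t)
    (h2 : t < b + L) : ∃ f1 f2 l r, (XX hg hgeo hι).Tri (C.lt t) f1 f2 ∧
    W' (t - b) = l ++ [f1, C.lt t] ∧ W' (t + 1 - b) = xinv (C.lt t) :: xinv f2 :: r ∧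
    (∀ i, C.o i ≤ t → t < C.m i → car f1 ≠ c i ∧ car f2 ≠ c i) ∧
    (∀ i, C.m i = t → car f1 ≠ c i) ∧
    (∀ i, C.o (i + 1) = t + 1 → car f2 ≠ c (i + 1)) := by
  have hn := hc.ps
  obtain ⟨f1, f2, l, r, hT, hW1, hW2⟩ := hp.bd.edg (t - b)
  have hget := hp.get (t - b) (by omega)
  rw [show b + (t - b) = t by omega] at hget
  rw [hget] at hT hW1 hW2
  have e1 : t - b + 1 = t + 1 - b := by omega
  rw [e1] at hW2
  have t1 : xsrc f1 = xsrc (C.lt t) := (XX hg hgeo hι).tri_src hT
  have t2 : xsrc f2 = xsrc (xinv f1) := (XX hg hgeo hι).tri_mid hT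
  have t3 : xsrc (xinv f2) = xsrc (xinv (C.lt t)) := (XX hg hgeo hι).tri_tgt hT
  have hR : (XX hg hgeo hι).IsP (xsrc (C.lt t)) [f1, f2] (xsrc (C.lt (t + 1))) :=
    ⟨t1, t2, t3.trans (h.ok.path hn t).symm⟩
  have h2' : t + 1 ≤ b + L := by omega
  have key : ¬ ((∃ i, C.o i ≤ t ∧ t < C.m i ∧ car f1 = c i ∧ car f2 = c i) ∨
      (∃ i, C.m i = t ∧ car f1 = c i) ∨ ∃ i, C.o (i + 1) = t + 1 ∧ car f2 = c (i + 1)) := by
    intro hcase
    have k1 := h.push M hSC hc hT hcase
    clear hcase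
    have k2 := ha.blk_le M hSC hc h (t := t) (r := 1) h1 h2' hR
    have hsg : C.sg b L = C.sg b (t - b) ++ [C.lt t] ++ C.sg (t + 1) (b + L - t - 1) := by
      have := C.sg_three (a := b) (N := L) (t := t) (r := 1) h1 (by omega)
      rw [Cfg.sg_one] at this
      exact this
    have hlt : t - b < (C.sg b L).length := by rw [Cfg.sg_length]; omega
    have hgt : (C.sg b L)[t - b] = C.lt t := by
      rw [Cfg.sg_get, show b + (t - b) = t by omega]
    have k3 := hp.red (t - b) hlt f1 f2 l (by rw [hgt]; exact hT) (by rw [hgt]; exact hW1)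
    have htk : (C.sg b L).take (t - b) = C.sg b (t - b) := by
      rw [hsg, List.append_assoc]
      exact List.take_left' (by simp)
    have hdr : (C.sg b L).drop (t - b + 1) = C.sg (t + 1) (b + L - t - 1) := by
      rw [hsg]
      exact List.drop_left' (by simp)
    rw [htk, hdr] at k3
    have k4 := ha.add
    have e5 : C.sg b (t - b) ++ [f1, f2] ++ C.sg (t + 1) (b + L - t - 1) =
        C.sg b (t - b) ++ f1 :: f2 :: C.sg (t + 1) (b + L - t - 1) := by simp
    rw [e5] at k2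
    omega
  refine ⟨f1, f2, l, r, hT, hW1, hW2, ?_, ?_, ?_⟩
  · intro i h3 h4
    have hcar := h.ok.car_side hn h3 h4
    obtain ⟨q, hq⟩ := hc.pl i
    obtain ⟨m', q', hm'⟩ := plane_letter (hcar.trans hq)
    constructor
    · intro h5
      have h6 := tri_car hm' hT (h5.trans hcar.symm)
      exact key (Or.inl ⟨i, h3, h4, h5, h6.trans hcar⟩)
    · intro h5
      have h6 := tri_car' hm' hT (h5.trans hcar.symm)
      exact key (Or.inl ⟨i, h3, h4, h6.trans hcar, h5⟩)
  · intro i h3 h4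
    exact key (Or.inr (Or.inl ⟨i, h3, h4⟩))
  · intro i h3 h4
    exact key (Or.inr (Or.inr ⟨i, h3, h4⟩))

include M hSC in
/-- at least three corners at the inner vertices of legs -/
theorem PD.leg (hc : Chn hg hgeo hι c ρ n) (h : MinC hg hgeo hι c n C) {b L : ℕ}
    (ha : Ad hg hgeo hι C b L) {a : ℕ → XE A B g} {W' : ℕ → List (XE A B g)}
    {I : List (List (XE A B g))} (hp : PD hg hgeo hι C b L a W' I) {i t : ℕ} (h3 : C.m i < t)
    (h4 : t < C.o (i + 1)) (h1 : b < t) (h2 : t < b + L) : 4 ≤ (W' (t - b)).length := by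
  by_contra hcon
  have hn := hc.ps
  obtain ⟨R, hR, hRl⟩ := H83.exists_rep hp.bd (t - 1 - b) (by
    rw [show t - 1 - b + 1 = t - b by omega]; omega)
  rw [show t - 1 - b + 1 = t - b by omega] at hR hRl
  have g1 := hp.get (t - 1 - b) (by omega)
  have g2 := hp.get (t - b) (by omega)
  rw [show b + (t - 1 - b) = t - 1 by omega] at g1
  rw [show b + (t - b) = t by omega] at g2
  rw [g1, g2] at hR
  have hpath := rep_path hR
  have e1 : (XX hg hgeo hι).tgt (C.lt t) = xsrc (C.lt (t + 1)) := (h.ok.path hn t).symm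
  have e2 : (XX hg hgeo hι).src (C.lt (t - 1)) = xsrc (C.lt (t - 1)) := rfl
  rw [e1, e2] at hpath
  -- distances
  have d1 := (leg_dist hc h.ok (i := i) (t := t - 1) (by omega) (by omega)).1
  have d2 := (leg_dist hc h.ok (i := i) (t := t + 1) (by omega) (by omega)).1
  have d3 := dVC_tri (hg := hg) (hgeo := hgeo) (hι := hι) (xsrc (C.lt (t - 1)))
    (xsrc (C.lt (t + 1))) (c (i + 1))
  have d4 := dst_le hpath
  have hl2 : R.length = 2 := by
    have := two_le hp.bd (t - b)
    omega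
  obtain ⟨x, y, rfl⟩ : ∃ x y, R = [x, y] := by
    match R, hl2 with
    | [x, y], _ => exact ⟨x, y, rfl⟩
  have hpath' : (XX hg hgeo hι).IsP (xsrc (C.lt (t - 1))) [x, y]
      (xsrc (C.lt (t - 1 + 2))) := by
    rw [show t - 1 + 2 = t + 1 by omega]; exact hpath
  have k1 := h.flip M hSC hc (i := i) (t := t - 1) (by omega) (by omega) hpath'
  have k2 := ha.blk_le M hSC hc h (t := t - 1) (r := 2) (by omega) (by omega) hpath'
  -- the site
  have hsg := C.sg_three (a := b) (N := L) (t := t - 1) (r := 2) (by omega) (by omega)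
  have e3 : C.sg (t - 1) 2 = [C.lt (t - 1), C.lt t] := by
    rw [show (2 : ℕ) = 1 + 1 by rfl, Cfg.sg_succ, Cfg.sg_one, show t - 1 + 1 = t by omega]
  rw [e3] at hsg
  have hlr : C.sg b (t - 1 - b) ++ C.sg (t - 1 + 2) (b + L - (t - 1) - 2) ≠ [] := by
    intro he
    have hl := congrArg List.length he
    simp only [List.length_append, Cfg.sg_length, List.length_nil] at hl
    have hL2 : L = 2 := by omega
    have hb : b = t - 1 := by omega
    have hcl := ha.cl
    rw [hL2, hb, e3] at hcl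
    obtain ⟨z, hz⟩ := hcl
    have z1 : xsrc (C.lt (t - 1)) = z := hz.1
    have z2 : xsrc (xinv (C.lt t)) = z := hz.2.2
    rw [← h.ok.path hn t, ← z1] at z2
    rw [z2, d1] at d2
    omega
  have k3 := H83.site1 M hSC (w := C.sg b L) (a := a) (W := W') (I := I) (by
      rw [Cfg.sg_length]; exact hp.bd) (by
      intro i hi
      rw [Cfg.sg_get]
      exact hp.get i (by simpa using hi)) hp.mask ha.cl (l := C.sg b (t - 1 - b))
      (r := C.sg (t - 1 + 2) (b + L - (t - 1) - 2)) (R := [x, y]) (b := C.lt (t - 1))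
      (c := C.lt t) (by rw [hsg]; simp) (by
      rw [Cfg.sg_length, show t - 1 - b + 1 = t - b by omega]; exact hR) (Or.inl hlr)
  have k4 := ha.add
  have k5 := k3.1
  simp only [List.length_cons, List.length_nil] at k5
  omega

end

/-! ## blocks -/

theorem sum_shift {L b : ℕ} (W' : ℕ → List (XE A B g)) :
    ∑ t ∈ Finset.Ico b (b + L), val (W' (t - b)) = ∑ i ∈ Finset.range L, val (W' i) := by
  rw [Finset.sum_Ico_eq_sum_range, Nat.add_sub_cancel_left]
  refine Finset.sum_congr rfl (fun i _ => ?_)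
  rw [Nat.add_sub_cancel_left]

theorem tot_range (hA : ∀ x ∈ A, ∀ y ∈ A, x * y = y * x) {L : ℕ} {a : ℕ → XE A B g}
    {W' : ℕ → List (XE A B g)} {I : List (List (XE A B g))}
    (h : Bd (XX hg hgeo hι) L a W' I) : 6 ≤ ∑ i ∈ Finset.range L, val (W' i) := by
  have h1 := six_le h (fun v hv => hsysX (hg := hg) (hgeo := hgeo) (hι := hι) hA v hv)
  have h2 : ∑ i ∈ Finset.range L, val (W' i) = ∑ i ∈ Finset.range L, val (W' (i + 1)) := by
    have h3 := Finset.sum_range_succ (fun i => val (W' i)) L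
    have h4 := Finset.sum_range_succ' (fun i => val (W' i)) L
    have h5 : W' L = W' 0 := by
      have := h.perW 0
      rwa [zero_add] at this
    rw [h5] at h3
    linarith
  rw [h2]
  exact h1

theorem tot_rangeR (hA : ∀ x ∈ A, ∀ y ∈ A, x * y = y * x) {L : ℕ} {a : ℕ → XE A B g}
    {W' : ℕ → List (XE A B g)} {I : List (List (XE A B g))}
    (h : Bd (XX hg hgeo hι) L a W' I) :
    (6 : ℝ) ≤ ∑ i ∈ Finset.range L, (3 - ow θR (W' i)) := by
  have h1 := h.gb θR (θR_Wt hg hgeo hι)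
  have h2 : (I.map (fun v => 6 - cw θR v)).sum ≤ 0 := by
    apply H17.sum_np
    intro t ht
    obtain ⟨v, hv, rfl⟩ := List.mem_map.1 ht
    obtain ⟨h3, h4, h5⟩ := h.inner v hv
    have h6 := (link_X' hg hgeo hι hA v (by rintro rfl; simp at h3) h4 h5).2
    rcases h6 with h6 | ⟨-, h6, -⟩ <;> linarith
  linarith

theorem Ad.blk (M : Mods) (hSC : (XX hg hgeo hι).SC) (hA : ∀ x ∈ A, ∀ y ∈ A, x * y = y * x)
    (hc : Chn hg hgeo hι c ρ n) (h : MinC hg hgeo hι c n C)
    (hnbk : ∀ t, C.lt (t + 1) ≠ xinv (C.lt t)) {b L : ℕ} (ha : Ad hg hgeo hι C b L) :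
    ∃ W, Blk hg hgeo hι c C b (b + L) W := by
  obtain ⟨a, W', I, hp⟩ := ha.pd M hSC hnbk
  have hL := ha.L1
  have hL2 : 2 ≤ L := by
    by_contra hcon
    have h1 : L = 1 := by omega
    have hcl := ha.cl
    rw [h1, Cfg.sg_one] at hcl
    obtain ⟨x, hx⟩ := hcl
    obtain ⟨k, hk⟩ := (M.area _ _ _ hSC).1 x _ hx |>.isP |> fun _ => hSC x _ hx
    exact D.not_single hk
  refine ⟨fun t => W' (t - b), ⟨by omega, ⟨?_, ?_, ?_, ?_⟩, ?_, ?_, ?_⟩⟩
  · intro t h1 h2
    exact hp.edg M hSC hc h ha h1 h2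
  · intro t _ _
    exact hp.bd.chain _
  · intro t _ _
    exact hp.bd.red _
  · intro i t h1 h2 h3 h4
    exact hp.leg M hSC hc h ha h1 h2 h3 h4
  · simp only [Nat.add_sub_cancel_left, Nat.sub_self]
    have := hp.bd.perW 0
    rwa [zero_add] at this
  · rw [sum_shift W']
    exact tot_range hA hp.bd
  · intro h1 h2 h3
    simp only [Nat.sub_self, Nat.add_sub_cancel_left] at h1 h2
    have h3' : (W' (L - 1)).length = 3 := by
      rw [show L - 1 = b + L - 1 - b by omega]; exact h3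
    rw [hp.s2 h1 h2 h3']

/-! ## the whole word -/

theorem whole (M : Mods) (hSC : (XX hg hgeo hι).SC) (hA : ∀ x ∈ A, ∀ y ∈ A, x * y = y * x)
    (hc : Chn hg hgeo hι c ρ n) (h : MinC hg hgeo hι c n C)
    (hnbk : ∀ t, C.lt (t + 1) ≠ xinv (C.lt t))
    (hpf : (XX hg hgeo hι).PF (C.sg 0 (C.o 6))) : ∃ W, Whl hg hgeo hι c C W := by
  have hn := hc.ps
  have hpos := h.ok.pos hn
  have hN : 6 ≤ C.o 6 := hpos.le_o 6
  have hcm : ∀ i, c (i + 6) = c i := hc.pc
  have hnil : (XX hg hgeo hι).ar ([] : List (XE A B g)) = 0 := by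
    have h1 := (M.area _ _ _ hSC).2.1 (vx 1 : XV A B g) [] 0 (D.nil _)
    omega
  have ha : Ad hg hgeo hι C 0 (C.o 6) := by
    refine ⟨by omega, le_rfl, h.ok.cl hn 0, ?_, ?_, hpf⟩
    · rw [Nat.sub_self, Cfg.sg_zero]; exact ⟨(vx 1 : XV A B g), rfl⟩
    · rw [Nat.sub_self, Cfg.sg_zero, hnil]; rfl
  obtain ⟨a, W, I, hp⟩ := ha.pd M hSC hnbk
  have hper : ∀ t, W (t + C.o 6) = W t := hp.bd.perW
  refine ⟨W, ⟨?_, hper, tot_range hA hp.bd, tot_rangeR hA hp.bd⟩⟩
  intro e
  -- the segment index of a position beyond the first period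
  have hi6 : ∀ {i t : ℕ}, C.o 6 + t < C.o (i + 1) → 6 ≤ i := by
    intro i t hlt
    by_contra hcon
    have := hpos.o_mono.monotone (show i + 1 ≤ 6 by omega)
    omega
  have hedg : ∀ t, ∃ f1 f2 l r, (XX hg hgeo hι).Tri (C.lt t) f1 f2 ∧
      W t = l ++ [f1, C.lt t] ∧ W (t + 1) = xinv (C.lt t) :: xinv f2 :: r ∧
      (∀ i, C.o i ≤ t → t < C.m i → car f1 ≠ c i ∧ car f2 ≠ c i) ∧
      (∀ i, C.m i = t → car f1 ≠ c i) ∧
      (∀ i, C.o (i + 1) = t + 1 → car f2 ≠ c (i + 1)) := by
    intro t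
    induction t using Nat.strong_induction_on with
    | _ t ih =>
      rcases Nat.lt_or_ge t (C.o 6) with ht | ht
      · exact hp.edg M hSC hc h ha (Nat.zero_le t) (by omega)
      · obtain ⟨s, rfl⟩ := Nat.exists_eq_add_of_le ht
        obtain ⟨f1, f2, l, r, k1, k2, k3, k4, k5, k6⟩ := ih s (by omega)
        have e1 : C.lt (C.o 6 + s) = C.lt s := by rw [Nat.add_comm, h.ok.lt6 hn]
        have e2 : W (C.o 6 + s) = W s := by rw [Nat.add_comm, hper]
        have e3 : W (C.o 6 + s + 1) = W (s + 1) := by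
          rw [show C.o 6 + s + 1 = (s + 1) + C.o 6 by omega, hper]
        refine ⟨f1, f2, l, r, by rw [e1]; exact k1, by rw [e1, e2]; exact k2,
          by rw [e1, e3]; exact k3, ?_, ?_, ?_⟩
        · intro i h1 h2
          have h3 := hpos.m_lt i
          have h4 := hi6 (i := i) (t := s) (by omega)
          obtain ⟨j, rfl⟩ := Nat.exists_eq_add_of_le' h4
          rw [h.ok.per.o j] at h1
          rw [h.ok.per.m j] at h2
          rw [hcm]
          exact k4 j (by omega) (by omega)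
        · intro i h1
          have h3 := hpos.m_lt i
          have h4 := hi6 (i := i) (t := s) (by omega)
          obtain ⟨j, rfl⟩ := Nat.exists_eq_add_of_le' h4
          rw [h.ok.per.m j] at h1
          rw [hcm]
          exact k5 j (by omega)
        · intro i h1
          have h4 := hi6 (i := i) (t := s) (by omega)
          obtain ⟨j, rfl⟩ := Nat.exists_eq_add_of_le' h4
          rw [show j + 6 + 1 = (j + 1) + 6 by omega, h.ok.per.o (j + 1)] at h1
          rw [show j + 6 + 1 = (j + 1) + 6 by omega, hcm]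
          exact k6 j (by omega)
  have hleg : ∀ t i, C.m i < t → t < C.o (i + 1) → 4 ≤ (W t).length := by
    intro t
    induction t using Nat.strong_induction_on with
    | _ t ih =>
      intro i h1 h2
      rcases Nat.lt_or_ge t (C.o 6) with ht | ht
      · have := hp.leg M hSC hc h ha h1 h2 (by omega) (by omega)
        exact this
      · obtain ⟨s, rfl⟩ := Nat.exists_eq_add_of_le ht
        have h4 := hi6 (i := i) (t := s) (by omega)
        obtain ⟨j, rfl⟩ := Nat.exists_eq_add_of_le' h4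
        have e2 : W (C.o 6 + s) = W s := by rw [Nat.add_comm, hper]
        rw [e2]
        rw [h.ok.per.m j] at h1
        rw [show j + 6 + 1 = (j + 1) + 6 by omega, h.ok.per.o (j + 1)] at h2
        exact ih s (by omega) j (by omega) (by omega)
  exact ⟨fun t _ _ => hedg t, fun t _ _ => hp.bd.chain t, fun t _ _ => hp.bd.red t,
    fun i t h1 h2 _ _ => hleg t i h1 h2⟩

/-! ## the theorem -/

/-- HEX -/
theorem hex (M : Mods) (hSC : (XX hg hgeo hι).SC) (hA : ∀ x ∈ A, ∀ y ∈ A, x * y = y * x)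
    (hSp : SpurStmt hg hgeo hι) : HexStmt hg hgeo hι := by
  intro c ρ n hc
  obtain ⟨C, h⟩ := exists_min hc
  have hn := hc.ps
  have hpos := h.ok.pos hn
  have hnb := h.nb M hSC hc
  have hnbk := no_back hSp hc h.ok hnb
  have hN : 6 ≤ C.o 6 := hpos.le_o 6
  refine ⟨C, h.ok, hnb, ?_⟩
  have hcl := h.ok.cl hn 0
  rcases M.pinch _ _ _ hSC (C.sg 0 (C.o 6)) hcl (by
    intro he
    have := congrArg List.length he
    simp at this
    omega) with hpf | ⟨k, l₁, p, l₂, q, l₃, hrot, hclp, hclq, hp0, hq0, hpfp, hpfq, hap, haq⟩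
  · exact Or.inl (whole M hSC hA hc h hnbk hpf)
  · right
    rw [h.ok.per.rotate hpos] at hrot
    have hlp : 1 ≤ p.length := List.length_pos_iff.2 hp0
    have hlq : 1 ≤ q.length := List.length_pos_iff.2 hq0
    have hlen := congrArg List.length hrot
    simp only [Cfg.sg_length, List.length_append] at hlen
    -- positions
    have hw1 : l₁ ++ p ++ (l₂ ++ q ++ l₃) = C.sg k (C.o 6) := by
      rw [hrot]; simp
    obtain ⟨a1, a2, a3⟩ := C.pq (a := k) (N := C.o 6) (t := k + l₁.length) (r := p.length)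
      (by omega) (by omega) hw1 (by omega) rfl
    have hw2 : (l₁ ++ p ++ l₂) ++ q ++ l₃ = C.sg k (C.o 6) := by
      rw [hrot]
    obtain ⟨b1, b2, b3⟩ := C.pq (a := k) (N := C.o 6)
      (t := k + (l₁.length + p.length + l₂.length)) (r := q.length)
      (by omega) (by omega) hw2 (by simp only [List.length_append]; omega) rfl
    -- the rest of the word
    have clrot : ∀ (u v : List (XE A B g)), (XX hg hgeo hι).Cl (u ++ v) →
        (XX hg hgeo hι).Cl (v ++ u) := fun u v huv => Cl_rot huv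
    have cut : ∀ (u v w : List (XE A B g)), (XX hg hgeo hι).Cl (u ++ v ++ w) →
        (XX hg hgeo hι).Cl v → v ≠ [] → (XX hg hgeo hι).Cl (u ++ w) := by
      rintro u v w ⟨x, hx⟩ ⟨y, hy⟩ hv
      obtain ⟨z, h1, h2⟩ := isP_append.1 hx
      obtain ⟨z', h3, h4⟩ := isP_append.1 h1
      obtain ⟨e, v', rfl⟩ := List.exists_cons_of_ne_nil hv
      have h5 : z' = y := h4.src_eq hy
      subst h5
      have h6 : z = z' := h4.eq hy
      subst h6
      exact ⟨x, isP_append.2 ⟨_, h3, h2⟩⟩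
    have hclk := h.ok.cl hn k
    have har := h.ok.ar_shift M hSC hn k
    have har0 : (XX hg hgeo hι).ar (C.sg 0 (C.o 6)) =
        (XX hg hgeo hι).ar (C.sg k (C.o 6)) := har.symm
    -- first block
    have rest1 : C.sg (k + l₁.length + p.length) (C.o 6 - p.length) = l₂ ++ q ++ l₃ ++ l₁ := by
      have := h.ok.rest hn (a := k) (t := k + l₁.length) (r := p.length) (by omega) (by omega)
      rw [this, ← a3]
      exact congrArg (fun z => l₂ ++ q ++ l₃ ++ z) a1.symm
    have rest2 : C.sg (k + (l₁.length + p.length + l₂.length) + q.length) (C.o 6 - q.length) =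
        l₃ ++ (l₁ ++ p ++ l₂) := by
      have := h.ok.rest hn (a := k) (t := k + (l₁.length + p.length + l₂.length))
        (r := q.length) (by omega) (by omega)
      rw [this, ← b3]
      exact congrArg (fun z => l₃ ++ z) b1.symm
    have cl1 : (XX hg hgeo hι).Cl (l₁ ++ (l₂ ++ q ++ l₃)) :=
      cut l₁ p (l₂ ++ q ++ l₃) (by rw [hw1]; exact hclk) hclp hp0
    have cl2 : (XX hg hgeo hι).Cl ((l₁ ++ p ++ l₂) ++ l₃) :=
      cut (l₁ ++ p ++ l₂) q l₃ (by rw [hw2]; exact hclk) hclq hq0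
    have A1 : Ad hg hgeo hι C (k + l₁.length) p.length := by
      refine ⟨hlp, by omega, by rw [← a2]; exact hclp, ?_, ?_, by rw [← a2]; exact hpfp⟩
      · rw [rest1]
        exact clrot _ _ cl1
      · rw [rest1, ← a2, ← ar_rot M hSC cl1, hap]
        rw [show l₁ ++ (l₂ ++ q ++ l₃) = l₁ ++ l₂ ++ q ++ l₃ by simp]
        omega
    have A2 : Ad hg hgeo hι C (k + (l₁.length + p.length + l₂.length)) q.length := by
      refine ⟨hlq, by omega, by rw [← b2]; exact hclq, ?_, ?_, by rw [← b2]; exact hpfq⟩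
      · rw [rest2]
        exact clrot _ _ cl2
      · rw [rest2, ← b2, ← ar_rot M hSC cl2, haq]
        omega
    obtain ⟨W, hW⟩ := A1.blk M hSC hA hc h hnbk
    obtain ⟨W', hW'⟩ := A2.blk M hSC hA hc h hnbk
    exact ⟨_, _, _, _, W, W', hW, hW', by omega, by omega⟩

end

end Pool.Agent.ABA.B.H52
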