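import Pool.Agent.Helper52_ABB.Far
import Pool.Agent.Helper52_ABB.Hex
import Pool.Agent.Helper83_ABA.GeoH52
import Pool.Agent.Helper24_ABA.Spur
import Pool.Agent.Helper71_ABB.Chn
import Pool.Agent.Helper99_ABB.Cnt
import Pool.Agent.Helper49_ABB.M0
import Pool.Agent.Helper49_ABB.FlatE
import Pool.Agent.Helper88_ABB.Cvc

/-! # The theorem from the bounds at the tips (MP_d857f1_al, part B) -/

set_option autoImplicit false

namespace Pool.Agent.ABA.B.H52

open Knd Pool.Agent.ABA Pool.Agent.ABA.B Pool.Agent.ABA.B.TG Pool.Agent.ABA.B.H17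
  Pool.Agent.ABA.B.H89 Pool.Agent.ABA.B.H49

/-- what is proved everywhere -/
structure Base {G : Type} [Group G] {A B : Subgroup G} {g : G} (hg : ¬ IsABA A B g)
    (hgeo : Geo A B) (hι : Function.Injective (Pι A B g)) : Prop where
  hA : ∀ x ∈ A, ∀ y ∈ A, x * y = y * x
  M : Mods
  hSC : (XX hg hgeo hι).SC
  hFix : FixStmt A B g
  hStab : StabStmt A B g
  hAdj : AdjStmt (A := A) (B := B) (g := g)
  hPr : PrjStmt hg hgeo hι
  hEd : EdgeStmt hg hgeo hι
  hNs : NsegStmt hg hgeo hι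
  hSt : StripStmt hg hgeo hι
  hFl : FlatStmt hg hgeo hι

theorem base {G : Type} [Group G] {A B : Subgroup G} {g : G} (hg : ¬ IsABA A B g)
    (hgeo : Geo A B) (hι : Function.Injective (Pι A B g))
    (hA : ∀ x ∈ A, ∀ y ∈ A, x * y = y * x) : Base hg hgeo hι := by
  have M := modsAll
  have hSC := scAll hg hgeo hι
  exact
    { hA := hA
      M := M
      hSC := hSC
      hFix := fix_stmt (hg := hg) (hgeo := hgeo) (hι := hι) M hSC hA
      hStab := stab_stmt (hg := hg) (hgeo := hgeo) (hι := hι) M hSC hA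
      hAdj := H83.h52_adj (hg := hg) (hgeo := hgeo) (hι := hι) M hSC hA
      hPr := H83.h52_prj M hSC hA
      hEd := H83.h52_edge M hSC hA
      hNs := H83.h52_nseg M hSC hA
      hSt := H83.h52_strip M hSC hA
      hFl := H49.flat_ hA }

/-- E6 without common vertices from the bounds at the tips -/
theorem far_tips {G : Type} [Group G] {A B : Subgroup G} {g : G} {hg : ¬ IsABA A B g}
    {hgeo : Geo A B} {hι : Function.Injective (Pι A B g)} (h : Base hg hgeo hι)
    (hT0 : Tip0Stmt hg hgeo hι) (hT1 : Tip1Stmt hg hgeo hι) :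
    E6FarStmt (A := A) (B := B) (g := g) :=
  far_of (H71.chn (hg := hg) (hgeo := hgeo) (hι := hι))
    (hex h.M h.hSC h.hA (H24.spur_stmt h.hA h.hFix h.hPr h.hEd h.hNs))
    H99.cnt_whole H99.cnt_block hT0 hT1 h.hFl (H63.side h.hA h.hSt)
    (H24.mloc_stmt h.hA h.hFix h.hPr h.hEd h.hSt) (H49.m0 h.hA h.hStab h.hSt)

/-- **the theorem** from the bounds at the tips -/
theorem final4
    (hT : ∀ (G : Type) [Group G] (A B : Subgroup G) (g : G) (hg : ¬ IsABA A B g)
      (hgeo : Geo A B) (hι : Function.Injective (Pι A B g)), Base hg hgeo hι →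
      Tip0Stmt hg hgeo hι ∧ Tip1Stmt hg hgeo hι) :
    ∃ (G : Type) (_ : Group G) (A B : Subgroup G), IsCyclic A ∧ IsCyclic B ∧
      (∀ g : G, ∃ x ∈ A, ∃ y ∈ B, ∃ z ∈ A, g = x * y * z) ∧ ¬ Group.IsSolvable G := by
  refine H88C.final3 ?_
  intro G _ A B g hg hgeo hι hA h _ hv
  have hb := base hg hgeo hι hA
  obtain ⟨h0, h1⟩ := hT G A B g hg hgeo hι hb
  exact far_tips hb h0 h1 h fun v hv1 hv2 => hv ⟨v, hv1, hv2⟩

end Pool.Agent.ABA.B.H52
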