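import Pool.Agent.Helper52_ABB.Fin
import Pool.Agent.Helper24_ABA.Tip1

/-! # The theorem from TIP0 (MP_d857f1_al, part B) -/

set_option autoImplicit false

namespace Pool.Agent.ABA.B.H52

open Knd Pool.Agent.ABA Pool.Agent.ABA.B Pool.Agent.ABA.B.TG Pool.Agent.ABA.B.H17
  Pool.Agent.ABA.B.H89 Pool.Agent.ABA.B.H49

/-- **the theorem** from TIP0 -/
theorem final5
    (hT : ∀ (G : Type) [Group G] (A B : Subgroup G) (g : G) (hg : ¬ IsABA A B g)
      (hgeo : Geo A B) (hι : Function.Injective (Pι A B g)), Base hg hgeo hι →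
      Tip0Stmt hg hgeo hι) :
    ∃ (G : Type) (_ : Group G) (A B : Subgroup G), IsCyclic A ∧ IsCyclic B ∧
      (∀ g : G, ∃ x ∈ A, ∃ y ∈ B, ∃ z ∈ A, g = x * y * z) ∧ ¬ Group.IsSolvable G :=
  final4 fun G _ A B g hg hgeo hι h => ⟨hT G A B g hg hgeo hι h,
    H24.tip1_stmt h.hA h.hFix h.hAdj h.hPr h.hEd h.hNs h.hFl⟩

end Pool.Agent.ABA.B.H52
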