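import Pool.Agent.Helper52_ABB.Fin2
import Pool.Agent.Helper49_ABB.Tip0b

/-! # The theorem (MP_d857f1_al) -/

set_option autoImplicit false

namespace Pool.Agent.ABA.B.H52

open Knd Pool.Agent.ABA Pool.Agent.ABA.B Pool.Agent.ABA.B.TG Pool.Agent.ABA.B.H17
  Pool.Agent.ABA.B.H89 Pool.Agent.ABA.B.H49

/-- **the theorem**: there is a group of the form `A B A` with `A`, `B` cyclic which is not
soluble -/
theorem exists_not_solvable :
    ∃ (G : Type) (_ : Group G) (A B : Subgroup G), IsCyclic A ∧ IsCyclic B ∧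
      (∀ g : G, ∃ x ∈ A, ∃ y ∈ B, ∃ z ∈ A, g = x * y * z) ∧ ¬ Group.IsSolvable G :=
  final5 fun _ _ _ _ _ _ _ _ h => H49.tip0 h.hA h.hStab h.hPr h.hEd h.hNs

end Pool.Agent.ABA.B.H52
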