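import Pool.Agent.Helper52_ABB.HexMin

/-! # Local minimality of minimal hexagons, by positions (MP_d857f1_al, part B) -/

set_option autoImplicit false

namespace Pool.Agent.ABA.B.H52

open Knd Pool.Agent.ABA Pool.Agent.ABA.B Pool.Agent.ABA.B.TG Pool.Agent.ABA.B.H17
  Pool.Agent.ABA.B.H89 Pool.Agent.ABA.B.H49

namespace Cfg

variable {V E : Type} (C : Cfg V E) [Inhabited E]

/-- splitting in three parts -/
theorem sg_three {a N t r : ℕ} (h1 : a ≤ t) (h2 : t + r ≤ a + N) :
    C.sg a N = C.sg a (t - a) ++ C.sg t r ++ C.sg (t + r) (a + N - t - r) := by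
  have e1 : N = (t - a) + r + (a + N - t - r) := by omega
  conv_lhs => rw [e1, sg_add, sg_add]
  rw [show a + (t - a) = t by omega, show a + (t - a + r) = t + r by omega]

theorem pq {a N t r : ℕ} (h1 : a ≤ t) (h2 : t + r ≤ a + N) {P R Q : List E}
    (h : P ++ R ++ Q = C.sg a N) (hP : P.length = t - a) (hR : R.length = r) :
    P = C.sg a (t - a) ∧ R = C.sg t r ∧ Q = C.sg (t + r) (a + N - t - r) := by
  rw [C.sg_three h1 h2] at h
  obtain ⟨h3, h4⟩ := List.append_inj h (by simp [hP, hR])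
  obtain ⟨h5, h6⟩ := List.append_inj h3 (by simp [hP])
  exact ⟨h5, h6, h4⟩

end Cfg

section

variable {G : Type} [Group G] {A B : Subgroup G} {g : G}
variable {hg : ¬ IsABA A B g} {hgeo : Geo A B} {hι : Function.Injective (Pι A B g)}
variable {c : ℕ → Car A B g} {ρ : ℕ → PP A B g} {n : ℕ} {C : Cfg (XV A B g) (XE A B g)}

variable (M : Mods) (hSC : (XX hg hgeo hι).SC)

/-- the rest of the cyclic word -/
theorem Ok.rest (h : Ok hg hgeo hι c n C) (hn : 1 ≤ n) {a t r : ℕ} (h1 : a ≤ t)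
    (h2 : t + r ≤ a + C.o 6) : C.sg (t + r) (C.o 6 - r) =
      C.sg (t + r) (a + C.o 6 - t - r) ++ C.sg a (t - a) := by
  have e1 : C.o 6 - r = (a + C.o 6 - t - r) + (t - a) := by omega
  rw [e1, Cfg.sg_add, show t + r + (a + C.o 6 - t - r) = a + C.o 6 by omega,
    h.per.sg (h.pos hn)]

/-- the replaced word is closed -/
theorem Ok.cl_rep (h : Ok hg hgeo hι c n C) (hn : 1 ≤ n) {a t r : ℕ} {R : List (XE A B g)}
    (h1 : a ≤ t) (h2 : t + r ≤ a + C.o 6)
    (hR : (XX hg hgeo hι).IsP (xsrc (C.lt t)) R (xsrc (C.lt (t + r)))) :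
    (XX hg hgeo hι).Cl (C.sg a (t - a) ++ R ++ C.sg (t + r) (a + C.o 6 - t - r)) := by
  have p1 := h.sgP hn a (t - a)
  rw [show a + (t - a) = t by omega] at p1
  have p2 := h.sgP hn (t + r) (a + C.o 6 - t - r)
  rw [show t + r + (a + C.o 6 - t - r) = a + C.o 6 by omega, h.per.lt (h.pos hn)] at p2
  exact ⟨_, isP_append.2 ⟨_, isP_append.2 ⟨_, p1, hR⟩, p2⟩⟩

include M hSC in
/-- replaced words, rotated -/
theorem Ok.ar_rep (h : Ok hg hgeo hι c n C) (hn : 1 ≤ n) {a t r : ℕ} {R : List (XE A B g)}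
    (h1 : a ≤ t) (h2 : t + r ≤ a + C.o 6)
    (hR : (XX hg hgeo hι).IsP (xsrc (C.lt t)) R (xsrc (C.lt (t + r)))) :
    (XX hg hgeo hι).ar (C.sg a (t - a) ++ R ++ C.sg (t + r) (a + C.o 6 - t - r)) =
      (XX hg hgeo hι).ar (R ++ C.sg (t + r) (C.o 6 - r)) := by
  have h3 := h.cl_rep hn h1 h2 hR
  rw [List.append_assoc] at h3
  rw [List.append_assoc, ar_rot M hSC h3, h.rest hn h1 h2, ← List.append_assoc]

include M hSC in
/-- from the measure to the rotated word -/
theorem MinC.rep_le (h : MinC hg hgeo hι c n C) (hn : 1 ≤ n) {a t r : ℕ}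
    {P R0 R1 Q : List (XE A B g)} (h1 : a ≤ t) (h2 : t + r ≤ a + C.o 6)
    (hw : P ++ R0 ++ Q = C.sg a (C.o 6)) (hP : P.length = t - a) (hl : R0.length = r)
    (hR : (XX hg hgeo hι).IsP (xsrc (C.lt t)) R1 (xsrc (C.lt (t + r))))
    (hmu : mu hg hgeo hι (P ++ R0 ++ Q) ≤ mu hg hgeo hι (P ++ R1 ++ Q)) :
    2 * (XX hg hgeo hι).ar (C.sg 0 (C.o 6)) + r ≤
      2 * (XX hg hgeo hι).ar (R1 ++ C.sg (t + r) (C.o 6 - r)) + R1.length := by
  obtain ⟨e1, e2, e3⟩ := C.pq h1 h2 hw hP hl
  have h3 := h.ok.ar_rep M hSC hn h1 h2 hR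
  have h4 := h.ok.ar_shift M hSC hn a
  unfold mu at hmu
  rw [hw, h4, e1, e3, h3] at hmu
  simp only [List.length_append, Cfg.sg_length] at hmu
  omega

/-- shift by one period -/
theorem Ok.shift_rest (h : Ok hg hgeo hι c n C) (hn : 1 ≤ n) (t k : ℕ) :
    C.sg (t + C.o 6) k = C.sg t k := h.per.sg (h.pos hn) t k

theorem Ok.lt6 (h : Ok hg hgeo hι c n C) (hn : 1 ≤ n) (t : ℕ) : C.lt (t + C.o 6) = C.lt t :=
  h.per.lt (h.pos hn) t

include M hSC in
/-- FLIP: positions `t`, `t + 1` in the leg `i` -/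
theorem MinC.flip (hc : Chn hg hgeo hι c ρ n) (h : MinC hg hgeo hι c n C) {i t : ℕ}
    (h1 : C.m i ≤ t) (h2 : t + 2 ≤ C.o (i + 1)) {x y : XE A B g}
    (hR : (XX hg hgeo hι).IsP (xsrc (C.lt t)) [x, y] (xsrc (C.lt (t + 2)))) :
    (XX hg hgeo hι).ar (C.sg 0 (C.o 6)) ≤
      (XX hg hgeo hι).ar ([x, y] ++ C.sg (t + 2) (C.o 6 - 2)) := by
  have hn := hc.ps
  have key : ∀ (k t : ℕ), C.m (k + 1) ≤ t → t + 2 ≤ C.o (k + 2) →
      (XX hg hgeo hι).IsP (xsrc (C.lt t)) [x, y] (xsrc (C.lt (t + 2))) →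
      (XX hg hgeo hι).ar (C.sg 0 (C.o 6)) ≤
        (XX hg hgeo hι).ar ([x, y] ++ C.sg (t + 2) (C.o 6 - 2)) := by
    intro k t h1 h2 hR
    have ho : C.o (k + 2) = C.m (k + 1) + n := h.ok.o_succ (k + 1)
    have hp := h.ok.pos hn
    have hd : C.d (k + 1) = C.sg (C.m (k + 1)) (t - C.m (k + 1)) ++ C.sg t 2 ++
        C.sg (t + 2) (C.o (k + 2) - t - 2) := by
      have e1 := hp.d_sg (k + 1)
      rw [h.ok.len, C.sg_three h1 (by omega : t + 2 ≤ C.m (k + 1) + n)] at e1
      rw [e1, ← ho]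
    have p1 := h.ok.sgP hn (C.m (k + 1)) (t - C.m (k + 1))
    rw [show C.m (k + 1) + (t - C.m (k + 1)) = t by omega, h.ok.src_m hn] at p1
    have p2 := h.ok.sgP hn (t + 2) (C.o (k + 2) - t - 2)
    rw [show t + 2 + (C.o (k + 2) - t - 2) = C.o (k + 2) by omega, h.ok.src_o hn] at p2
    have hmu := h.flip1 M hSC hc hd p1 p2 hR (by simp)
    have hw := h.ok.wd_sg6 hn k
    rw [wd_six, hd] at hw
    have b1 : C.o k + (C.s k).length + (C.d k).length = C.o (k + 1) := rfl
    have b2 : C.o (k + 1) + (C.s (k + 1)).length = C.m (k + 1) := rfl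
    have b3 : C.o (k + 2) ≤ C.o k + C.o 6 := by
      rw [← h.ok.per.o]
      exact hp.o_mono.monotone (by omega)
    have h3 := h.rep_le M hSC hn (a := C.o k) (t := t) (r := 2) (by omega) (by omega)
      (by rw [← hw]; simp only [List.append_assoc]) (by
        simp only [List.length_append, Cfg.sg_length]; omega) (by simp) hR hmu
    simp only [List.length_cons, List.length_nil] at h3
    omega
  cases i with
  | succ k => exact key k t h1 h2 hR
  | zero =>
    have e1 := h.ok.per.m 0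
    have e2 := h.ok.per.o 1
    have e3 : t + C.o 6 + 2 = (t + 2) + C.o 6 := by omega
    have h3 := key 5 (t + C.o 6) (by
      rw [Nat.zero_add] at e1
      rw [show 5 + 1 = 6 by rfl, e1]; omega) (by
      rw [show 5 + 2 = 1 + 6 by rfl, e2]; rw [Nat.zero_add] at h2; omega) (by
      rw [e3, h.ok.lt6 hn, h.ok.lt6 hn]; exact hR)
    rw [e3, h.ok.shift_rest hn] at h3
    exact h3

include M hSC in
/-- PUSH: sliding legs and pushing side letters does not decrease the area -/
theorem MinC.push (hc : Chn hg hgeo hι c ρ n) (h : MinC hg hgeo hι c n C) {t : ℕ}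
    {f1 f2 : XE A B g} (ht : (XX hg hgeo hι).Tri (C.lt t) f1 f2)
    (hcase : (∃ i, C.o i ≤ t ∧ t < C.m i ∧ car f1 = c i ∧ car f2 = c i) ∨
      (∃ i, C.m i = t ∧ car f1 = c i) ∨ ∃ i, C.o (i + 1) = t + 1 ∧ car f2 = c (i + 1)) :
    (XX hg hgeo hι).ar (C.sg 0 (C.o 6)) ≤
      (XX hg hgeo hι).ar ([f1, f2] ++ C.sg (t + 1) (C.o 6 - 1)) := by
  have hn := hc.ps
  have hp := h.ok.pos hn
  have hcm : ∀ i j, i % 6 = j % 6 → c i = c j := fun i j e => per_eq hc.pc e
  have key : ∀ (k t : ℕ) (_ : (XX hg hgeo hι).Tri (C.lt t) f1 f2),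
      ((C.o (k + 1) ≤ t ∧ t < C.m (k + 1) ∧ car f1 = c (k + 1) ∧ car f2 = c (k + 1)) ∨
      (C.m (k + 1) = t ∧ car f1 = c (k + 1)) ∨ (C.o (k + 1) = t + 1 ∧ car f2 = c (k + 1))) →
      (XX hg hgeo hι).ar (C.sg 0 (C.o 6)) ≤
        (XX hg hgeo hι).ar ([f1, f2] ++ C.sg (t + 1) (C.o 6 - 1)) := by
    intro k t ht hcase
    have t1 : xsrc f1 = xsrc (C.lt t) := (XX hg hgeo hι).tri_src ht
    have t2 : xsrc f2 = xsrc (xinv f1) := (XX hg hgeo hι).tri_mid ht
    have t3 : xsrc (xinv f2) = xsrc (xinv (C.lt t)) := (XX hg hgeo hι).tri_tgt ht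
    have hR : (XX hg hgeo hι).IsP (xsrc (C.lt t)) [f1, f2] (xsrc (C.lt (t + 1))) :=
      ⟨t1, t2, t3.trans (h.ok.path hn t).symm⟩
    have b1 : C.o k + (C.s k).length + (C.d k).length = C.o (k + 1) := rfl
    have b2 : C.o (k + 1) + (C.s (k + 1)).length = C.m (k + 1) := rfl
    have b3 : C.o (k + 2) ≤ C.o k + C.o 6 := by
      rw [← h.ok.per.o]
      exact hp.o_mono.monotone (by omega)
    have b4 : C.m (k + 1) < C.o (k + 2) := hp.m_lt (k + 1)
    have b5 := hp k
    have hw := h.ok.wd_sg6 hn k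
    rcases hcase with ⟨h1, h2, h3, h4⟩ | ⟨h1, h3⟩ | ⟨h1, h3⟩
    · -- side
      have hs : C.s (k + 1) = C.sg (C.o (k + 1)) (t - C.o (k + 1)) ++ [C.lt t] ++
          C.sg (t + 1) (C.m (k + 1) - t - 1) := by
        have e1 := hp.s_sg (k + 1)
        rw [C.sg_three h1 (by omega : t + 1 ≤ C.o (k + 1) + (C.s (k + 1)).length),
          Cfg.sg_one, b2] at e1
        exact e1
      have hside := h.ok.side (k + 1)
      have hcar := h.ok.car_side hn h1 h2
      rw [hs, List.append_assoc] at hside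
      have hside' : SideP hg hgeo hι (c (k + 1)) (C.xm (k + 1)) (C.xp (k + 1))
          (C.sg (C.o (k + 1)) (t - C.o (k + 1)) ++ f1 :: f2 :: C.sg (t + 1) (C.m (k + 1) - t - 1)) :=
        SideP.push hside ht (by rw [h3, hcar]) (by rw [h4, hcar])
      have hmu := h.sideM M hSC hc hs (R1 := [f1, f2]) (by
        simpa only [List.append_assoc, List.cons_append, List.nil_append] using hside')
      rw [wd_six, hs] at hw
      have h5 := h.rep_le M hSC hn (a := C.o k) (t := t) (r := 1) (by omega) (by omega)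
        (by rw [← hw]; simp only [List.append_assoc]) (by
          simp only [List.length_append, Cfg.sg_length]; omega) (by simp) hR hmu
      simp only [List.length_cons, List.length_nil] at h5
      omega
    · -- start of the leg
      have hd : C.d (k + 1) = C.lt t :: C.sg (t + 1) (n - 1) := by
        have e1 := hp.d_sg (k + 1)
        rw [h.ok.len, h1] at e1
        obtain ⟨n', rfl⟩ : ∃ n', n = n' + 1 := ⟨n - 1, by omega⟩
        rw [Cfg.sg_succ] at e1
        exact e1
      have hmu := h.slideP M hSC hc hd ht h3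
      rw [wd_six, hd] at hw
      have h5 := h.rep_le M hSC hn (a := C.o k) (t := t) (r := 1) (by omega) (by omega)
        (by rw [← hw]; simp only [List.append_assoc, List.cons_append, List.nil_append]) (by
          simp only [List.length_append]; omega) (by simp) hR hmu
      simp only [List.length_cons, List.length_nil] at h5
      omega
    · -- end of the leg
      have b6 := h.ok.o_succ k
      have hd : C.d k = C.sg (C.m k) (n - 1) ++ [C.lt t] := by
        have e1 := hp.d_sg k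
        rw [h.ok.len] at e1
        obtain ⟨n', rfl⟩ : ∃ n', n = n' + 1 := ⟨n - 1, by omega⟩
        rw [Cfg.sg_last, show C.m k + n' = t by omega] at e1
        exact e1
      have hmu := h.slideM M hSC hc hd ht h3
      have hl := h.ok.len k
      have b7 : C.o k + (C.s k).length = C.m k := rfl
      have e2 : C.wd k 6 = C.s k ++ (C.d k ++ C.wd (k + 1) 5) := rfl
      rw [e2, hd] at hw
      have h5 := h.rep_le M hSC hn (a := C.o k) (t := t) (r := 1) (by omega) (by omega)
        (by rw [← hw]; simp only [List.append_assoc]) (by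
          simp only [List.length_append, Cfg.sg_length]; omega) (by simp) hR hmu
      simp only [List.length_cons, List.length_nil] at h5
      omega
  -- reduction to positive indices
  have fin : ∀ i, ((C.o i ≤ t ∧ t < C.m i ∧ car f1 = c i ∧ car f2 = c i) ∨
      (C.m i = t ∧ car f1 = c i)) → (XX hg hgeo hι).ar (C.sg 0 (C.o 6)) ≤
        (XX hg hgeo hι).ar ([f1, f2] ++ C.sg (t + 1) (C.o 6 - 1)) := by
    intro i hi
    cases i with
    | succ k =>
      refine key k t ht ?_
      rcases hi with hi | hi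
      · exact Or.inl hi
      · exact Or.inr (Or.inl hi)
    | zero =>
      have e1 := h.ok.per.m 0
      have e2 := h.ok.per.o 0
      rw [Nat.zero_add] at e1 e2
      have e4 : c 6 = c 0 := hc.pc 0
      have h3 := key 5 (t + C.o 6) (by rw [h.ok.lt6 hn]; exact ht) (by
        rcases hi with ⟨a1, a2, a3, a4⟩ | ⟨a1, a2⟩
        · left
          refine ⟨?_, ?_, ?_, ?_⟩
          · rw [show 5 + 1 = 6 by rfl]; omega
          · rw [show 5 + 1 = 6 by rfl, e1]; omega
          · rw [show 5 + 1 = 6 by rfl, e4]; exact a3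
          · rw [show 5 + 1 = 6 by rfl, e4]; exact a4
        · right; left
          refine ⟨?_, ?_⟩
          · rw [show 5 + 1 = 6 by rfl, e1]; omega
          · rw [show 5 + 1 = 6 by rfl, e4]; exact a2)
      rw [show t + C.o 6 + 1 = (t + 1) + C.o 6 by omega, h.ok.shift_rest hn] at h3
      exact h3
  rcases hcase with ⟨i, hi⟩ | ⟨i, hi⟩ | ⟨i, hi⟩
  · exact fin i (Or.inl hi)
  · exact fin i (Or.inr hi)
  · exact key i t ht (Or.inr (Or.inr hi))

include M hSC in
/-- no backtracking in the sides -/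
theorem MinC.nb (hc : Chn hg hgeo hι c ρ n) (h : MinC hg hgeo hι c n C) : Nb C := by
  have hn := hc.ps
  have hp := h.ok.pos hn
  have key : ∀ (k t : ℕ), C.o (k + 1) ≤ t → t + 1 < C.m (k + 1) →
      C.lt (t + 1) = xinv (C.lt t) → False := by
    intro k t h1 h2 h3
    have b1 : C.o k + (C.s k).length + (C.d k).length = C.o (k + 1) := rfl
    have b2 : C.o (k + 1) + (C.s (k + 1)).length = C.m (k + 1) := rfl
    have b3 : C.o (k + 2) ≤ C.o k + C.o 6 := by
      rw [← h.ok.per.o]
      exact hp.o_mono.monotone (by omega)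
    have b4 : C.m (k + 1) < C.o (k + 2) := hp.m_lt (k + 1)
    have hs : C.s (k + 1) = C.sg (C.o (k + 1)) (t - C.o (k + 1)) ++ C.sg t 2 ++
        C.sg (t + 2) (C.m (k + 1) - t - 2) := by
      have e1 := hp.s_sg (k + 1)
      rw [C.sg_three h1 (by omega : t + 2 ≤ C.o (k + 1) + (C.s (k + 1)).length), b2] at e1
      exact e1
    have e2 : C.sg t 2 = [C.lt t, xinv (C.lt t)] := by
      rw [show (2 : ℕ) = 1 + 1 by rfl, Cfg.sg_succ, Cfg.sg_one, h3]
    have hside := h.ok.side (k + 1)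
    rw [hs, e2, List.append_assoc] at hside
    have hside' : SideP hg hgeo hι (c (k + 1)) (C.xm (k + 1)) (C.xp (k + 1))
        (C.sg (C.o (k + 1)) (t - C.o (k + 1)) ++ C.sg (t + 2) (C.m (k + 1) - t - 2)) :=
      SideP.back hside
    have hmu := h.sideM M hSC hc hs (R1 := []) (by
      simpa only [List.append_nil] using hside')
    have hw := h.ok.wd_sg6 hn k
    rw [wd_six, hs] at hw
    have hR : (XX hg hgeo hι).IsP (xsrc (C.lt t)) [] (xsrc (C.lt (t + 2))) := by
      have e3 := h.ok.path hn (t + 1)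
      rw [h3] at e3
      have e4 : xinv (xinv (C.lt t)) = C.lt t := (XX hg hgeo hι).inv_inv _
      rw [e4] at e3
      exact e3.symm
    have h5 := h.rep_le M hSC hn (a := C.o k) (t := t) (r := 2) (by omega) (by omega)
      (by rw [← hw]; simp only [List.append_assoc]) (by
        simp only [List.length_append, Cfg.sg_length]; omega) (by simp) hR hmu
    simp only [List.nil_append, List.length_nil] at h5
    -- the backtrack can be removed
    have h6 : (XX hg hgeo hι).Cl (C.sg t (C.o 6)) := h.ok.cl hn t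
    have hN : 2 ≤ C.o 6 := by
      have := hp.le_o 6
      omega
    obtain ⟨N', hN'⟩ : ∃ N', C.o 6 = N' + 1 + 1 := ⟨C.o 6 - 2, by omega⟩
    have e5 : C.sg t (C.o 6) = C.lt t :: xinv (C.lt t) :: C.sg (t + 2) N' := by
      rw [hN', Cfg.sg_succ, Cfg.sg_succ, h3]
    rw [e5] at h6
    have h7 := ar_back M hSC (u := []) (v := C.sg (t + 2) N') (e := C.lt t) h6
    rw [List.nil_append, List.nil_append, ← e5, h.ok.ar_shift M hSC hn t] at h7
    rw [show C.o 6 - 2 = N' by omega] at h5
    omega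
  intro i t h1 h2 h3
  cases i with
  | succ k => exact key k t h1 h2 h3
  | zero =>
    have e1 := h.ok.per.m 0
    have e2 := h.ok.per.o 0
    rw [Nat.zero_add] at e1 e2
    refine key 5 (t + C.o 6) ?_ ?_ ?_
    · rw [show 5 + 1 = 6 by rfl]; omega
    · rw [show 5 + 1 = 6 by rfl, e1]; omega
    · rw [show t + C.o 6 + 1 = (t + 1) + C.o 6 by omega, h.ok.lt6 hn, h.ok.lt6 hn]
      exact h3

/-- consecutive letters are not inverse -/
theorem no_back (hSp : SpurStmt hg hgeo hι) (hc : Chn hg hgeo hι c ρ n)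
    (h : Ok hg hgeo hι c n C) (hnb : Nb C) (t : ℕ) : C.lt (t + 1) ≠ xinv (C.lt t) := by
  intro he
  have hn := hc.ps
  have hp := h.pos hn
  obtain ⟨i, h1, h2⟩ := hp.exists_seg t
  have h3 := C.o_le_m i
  have h4 := hp.m_lt i
  rcases Nat.lt_or_ge t (C.m i) with h5 | h5
  · -- t in the side
    rcases Nat.lt_or_ge (t + 1) (C.m i) with h6 | h6
    · exact hnb i t h1 h6 he
    · have h7 := (leg_car hc h (i := i) (t := t + 1) (by omega) (by omega)).1
      rw [he, car_inv] at h7
      exact h7 (h.car_side hn h1 h5)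
  · -- t in the leg
    rcases Nat.lt_or_ge (t + 1) (C.o (i + 1)) with h6 | h6
    · have d1 := (leg_dist hc h (i := i) (t := t) h5 (by omega)).1
      have d2 := (leg_dist hc h (i := i) (t := t + 2) (by omega) (by omega)).1
      have e3 := h.path hn (t + 1)
      have e4 : xinv (xinv (C.lt t)) = C.lt t := (XX hg hgeo hι).inv_inv _
      rw [he, e4] at e3
      rw [show t + 1 + 1 = t + 2 by rfl] at e3
      rw [e3, d1] at d2
      omega
    · have h7 : t + 1 = C.o (i + 1) := by omega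
      have h8 := C.o_le_m (i + 1)
      rcases Nat.lt_or_ge (C.o (i + 1)) (C.m (i + 1)) with h9 | h9
      · have h10 := (leg_car hc h (i := i) (t := t) h5 h2).2
        have h11 := h.car_side hn (i := i + 1) (t := t + 1) (by omega) (by omega)
        rw [he, car_inv] at h11
        exact h10 h11
      · have h10 : C.m (i + 1) = C.o (i + 1) := by omega
        refine hSp c ρ n C hc h i (C.m_eq_o.1 h10) ?_
        rw [eM, eP, h10, ← h7, Nat.add_sub_cancel]
        exact he.symm

end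

end Pool.Agent.ABA.B.H52
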