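import Pool.Agent.Helper52_ABB.HexLib

/-! # Minimal hexagons (MP_d857f1_al, part B) -/

set_option autoImplicit false

namespace Pool.Agent.ABA.B.H52

open Knd Pool.Agent.ABA Pool.Agent.ABA.B Pool.Agent.ABA.B.TG Pool.Agent.ABA.B.H17
  Pool.Agent.ABA.B.H89 Pool.Agent.ABA.B.H49

/-! ## periodic functions -/

theorem per_eq {X : Type} {f : ℕ → X} (h : ∀ i, f (i + 6) = f i) {i j : ℕ}
    (hij : i % 6 = j % 6) : f i = f j := by
  have key : ∀ (q r : ℕ), f (r + 6 * q) = f r := by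
    intro q
    induction q with
    | zero => intro r; rfl
    | succ q ih => intro r; rw [Nat.mul_succ, ← Nat.add_assoc, h, ih]
  have h1 := key (i / 6) (i % 6)
  have h2 := key (j / 6) (j % 6)
  rw [Nat.mod_add_div] at h1 h2
  rw [h1, h2, hij]

section

variable {G : Type} [Group G] {A B : Subgroup G} {g : G}
variable {hg : ¬ IsABA A B g} {hgeo : Geo A B} {hι : Function.Injective (Pι A B g)}
variable {c : ℕ → Car A B g} {ρ : ℕ → PP A B g} {n : ℕ} {C : Cfg (XV A B g) (XE A B g)}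

/-! ## existence of hexagons -/

theorem exists_ok (hc : Chn hg hgeo hι c ρ n) : ∃ C, Ok hg hgeo hι c n C := by
  have h1 : ∀ i, ∃ x y q, On (c i) x ∧ On (c (i + 1)) y ∧ (XX hg hgeo hι).IsP x q y ∧
      q.length = n := by
    intro i
    obtain ⟨x, y, hx, hy, hd⟩ := exists_dCC (hg := hg) (hgeo := hgeo) (hι := hι) (c i) (c (i + 1))
    obtain ⟨q, hq, hl⟩ := exists_geod (connX (hg := hg) (hgeo := hgeo) (hι := hι)) x y
    exact ⟨x, y, q, hx, hy, hq, by rw [hl, hd, hc.ds]⟩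
  choose X Y Q hX hY hQ hl using h1
  have hcm : ∀ i j, i % 6 = j % 6 → c i = c j := fun i j h => per_eq hc.pc h
  have h2 : ∀ i, ∃ s, SideP hg hgeo hι (c i) (Y ((i + 5) % 6)) (X (i % 6)) s := by
    intro i
    refine car_conn hg hgeo hι ?_ ?_
    · have := hY ((i + 5) % 6)
      rw [hcm ((i + 5) % 6 + 1) i (by omega)] at this
      exact this
    · have := hX (i % 6)
      rw [hcm (i % 6) i (by omega)] at this
      exact this
  choose S hS using h2
  refine ⟨⟨fun i => Y ((i + 5) % 6), fun i => X (i % 6), fun i => S (i % 6), fun i => Q (i % 6)⟩,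
    ⟨?_, ?_, ?_, ?_, ?_, ?_, ?_, ?_, ?_⟩⟩
  · intro i
    simp only
    rw [show (i + 6 + 5) % 6 = (i + 5) % 6 by omega]
  · intro i
    simp only
    rw [show (i + 6) % 6 = i % 6 by omega]
  · intro i
    simp only
    rw [show (i + 6) % 6 = i % 6 by omega]
  · intro i
    simp only
    rw [show (i + 6) % 6 = i % 6 by omega]
  · intro i
    have := hY ((i + 5) % 6)
    rw [hcm ((i + 5) % 6 + 1) i (by omega)] at this
    exact this
  · intro i
    have := hX (i % 6)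
    rw [hcm (i % 6) i (by omega)] at this
    exact this
  · intro i
    have := hS (i % 6)
    rw [hcm (i % 6) i (by omega), show (i % 6 + 5) % 6 = (i + 5) % 6 by omega,
      show i % 6 % 6 = i % 6 by omega] at this
    exact this
  · intro i
    have := hQ (i % 6)
    simp only
    rw [show (i + 1 + 5) % 6 = i % 6 by omega]
    exact this
  · intro i
    exact hl (i % 6)

/-! ## modifications -/

/-- new side `k + 1`, new legs `k` and `k + 1` -/
def upd (C : Cfg (XV A B g) (XE A B g)) (k : ℕ) (xm' xp' : XV A B g)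
    (dp' s' d' : List (XE A B g)) : Cfg (XV A B g) (XE A B g) where
  xm := fun j => if j % 6 = (k + 1) % 6 then xm' else C.xm j
  xp := fun j => if j % 6 = (k + 1) % 6 then xp' else C.xp j
  s := fun j => if j % 6 = (k + 1) % 6 then s' else C.s j
  d := fun j => if j % 6 = (k + 1) % 6 then d' else if j % 6 = k % 6 then dp' else C.d j

theorem upd_ok (hc : Chn hg hgeo hι c ρ n) (h : Ok hg hgeo hι c n C) {k : ℕ}
    {xm' xp' : XV A B g} {dp' s' d' : List (XE A B g)}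
    (h1 : (XX hg hgeo hι).IsP (C.xp k) dp' xm') (h2 : dp'.length = n)
    (h3 : On (c (k + 1)) xm') (h4 : On (c (k + 1)) xp')
    (h5 : SideP hg hgeo hι (c (k + 1)) xm' xp' s')
    (h6 : (XX hg hgeo hι).IsP xp' d' (C.xm (k + 2))) (h7 : d'.length = n) :
    Ok hg hgeo hι c n (upd C k xm' xp' dp' s' d') := by
  have hcm : ∀ i j, i % 6 = j % 6 → c i = c j := fun i j h => per_eq hc.pc h
  have hxm : ∀ i j, i % 6 = j % 6 → C.xm i = C.xm j := fun i j e => per_eq h.pm e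
  have hxp : ∀ i j, i % 6 = j % 6 → C.xp i = C.xp j := fun i j e => per_eq h.pp e
  refine ⟨?_, ?_, ?_, ?_, ?_, ?_, ?_, ?_, ?_⟩
  · intro i
    simp only [upd, show (i + 6) % 6 = i % 6 by omega, h.pm]
  · intro i
    simp only [upd, show (i + 6) % 6 = i % 6 by omega, h.pp]
  · intro i
    simp only [upd, show (i + 6) % 6 = i % 6 by omega, h.ps]
  · intro i
    simp only [upd, show (i + 6) % 6 = i % 6 by omega, h.pd]
  · intro i
    by_cases hi : i % 6 = (k + 1) % 6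
    · simp only [upd, hi, if_true]
      rw [hcm i (k + 1) hi]; exact h3
    · simp only [upd, hi, if_false]
      exact h.om i
  · intro i
    by_cases hi : i % 6 = (k + 1) % 6
    · simp only [upd, hi, if_true]
      rw [hcm i (k + 1) hi]; exact h4
    · simp only [upd, hi, if_false]
      exact h.op i
  · intro i
    by_cases hi : i % 6 = (k + 1) % 6
    · simp only [upd, hi, if_true]
      rw [hcm i (k + 1) hi]; exact h5
    · simp only [upd, hi, if_false]
      exact h.side i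
  · intro i
    by_cases hi : i % 6 = (k + 1) % 6
    · have hi' : ¬ (i + 1) % 6 = (k + 1) % 6 := by omega
      simp only [upd, hi, hi', if_true, if_false]
      rw [hxm (i + 1) (k + 2) (by omega)]
      exact h6
    · by_cases hi2 : i % 6 = k % 6
      · have hi' : (i + 1) % 6 = (k + 1) % 6 := by omega
        simp only [upd, hi, hi', if_true, if_false]
        rw [if_pos hi2, hxp i k hi2]
        exact h1
      · have hi' : ¬ (i + 1) % 6 = (k + 1) % 6 := by omega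
        simp only [upd, hi, hi', hi2, if_false]
        exact h.leg i
  · intro i
    by_cases hi : i % 6 = (k + 1) % 6
    · simp only [upd, hi, if_true]
      exact h7
    · by_cases hi2 : i % 6 = k % 6
      · simp only [upd, hi, if_false]
        rw [if_pos hi2]
        exact h2
      · simp only [upd, hi, hi2, if_false]
        exact h.len i

theorem upd_wd {k : ℕ} {xm' xp' : XV A B g} {dp' s' d' : List (XE A B g)} :
    (upd C k xm' xp' dp' s' d').wd k 6 =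
      C.s k ++ (dp' ++ (s' ++ (d' ++ C.wd (k + 2) 4))) := by
  have e1 : ¬ k % 6 = (k + 1) % 6 := by omega
  have e2 : ¬ (k + 1 + 1) % 6 = (k + 1) % 6 := by omega
  have e3 : ¬ (k + 1 + 1 + 1) % 6 = (k + 1) % 6 := by omega
  have e4 : ¬ (k + 1 + 1 + 1 + 1) % 6 = (k + 1) % 6 := by omega
  have e5 : ¬ (k + 1 + 1 + 1 + 1 + 1) % 6 = (k + 1) % 6 := by omega
  have f2 : ¬ (k + 1 + 1) % 6 = k % 6 := by omega
  have f3 : ¬ (k + 1 + 1 + 1) % 6 = k % 6 := by omega
  have f4 : ¬ (k + 1 + 1 + 1 + 1) % 6 = k % 6 := by omega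
  have f5 : ¬ (k + 1 + 1 + 1 + 1 + 1) % 6 = k % 6 := by omega
  simp only [Cfg.wd, upd, e1, e2, e3, e4, e5, f2, f3, f4, f5, if_true, if_false]

theorem wd_six (k : ℕ) : C.wd k 6 =
    C.s k ++ (C.d k ++ (C.s (k + 1) ++ (C.d (k + 1) ++ C.wd (k + 2) 4))) := rfl

/-! ## areas of rotations -/

section areas

variable (M : Mods) (hSC : (XX hg hgeo hι).SC)

theorem Ok.cl (h : Ok hg hgeo hι c n C) (hn : 1 ≤ n) (a : ℕ) :
    (XX hg hgeo hι).Cl (C.sg a (C.o 6)) := by
  refine ⟨xsrc (C.lt a), ?_⟩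
  have h1 := h.sgP hn a (C.o 6)
  rw [h.per.lt (h.pos hn)] at h1
  exact h1

theorem Ok.wd_sg6 (h : Ok hg hgeo hι c n C) (hn : 1 ≤ n) (k : ℕ) :
    C.wd k 6 = C.sg (C.o k) (C.o 6) := by
  have h1 := (h.pos hn).wd_sg k 6
  have h2 := C.wd_len k 6
  rw [h.per.o] at h2
  rw [h1]
  congr 1
  omega

include M hSC in
theorem Ok.ar_shift (h : Ok hg hgeo hι c n C) (hn : 1 ≤ n) (a : ℕ) :
    (XX hg hgeo hι).ar (C.sg a (C.o 6)) = (XX hg hgeo hι).ar (C.sg 0 (C.o 6)) := by
  induction a with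
  | zero => rfl
  | succ a ih =>
    rw [← ih]
    have hN : 1 ≤ C.o 6 := by
      have := (h.pos hn).le_o 6
      omega
    obtain ⟨N', hN'⟩ : ∃ N', C.o 6 = N' + 1 := ⟨C.o 6 - 1, by omega⟩
    have h1 : C.sg a (C.o 6) = [C.lt a] ++ C.sg (a + 1) N' := by
      rw [hN', Cfg.sg_succ]; rfl
    have h2 : C.sg (a + 1) (C.o 6) = C.sg (a + 1) N' ++ [C.lt a] := by
      rw [hN', Cfg.sg_last]
      rw [show a + 1 + N' = a + C.o 6 by omega, h.per.lt (h.pos hn)]
    have h3 := h.cl hn a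
    rw [h1] at h3
    rw [h1, h2, ar_rot M hSC h3]

end areas

/-- a minimal hexagon -/
structure MinC (hg : ¬ IsABA A B g) (hgeo : Geo A B) (hι : Function.Injective (Pι A B g))
    (c : ℕ → Car A B g) (n : ℕ) (C : Cfg (XV A B g) (XE A B g)) : Prop where
  ok : Ok hg hgeo hι c n C
  min : ∀ C', Ok hg hgeo hι c n C' →
    mu hg hgeo hι (C.sg 0 (C.o 6)) ≤ mu hg hgeo hι (C'.sg 0 (C'.o 6))

theorem exists_min (hc : Chn hg hgeo hι c ρ n) : ∃ C, MinC hg hgeo hι c n C := by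
  classical
  obtain ⟨C0, h0⟩ := exists_ok hc
  let Q : ℕ → Prop := fun N => ∃ C, Ok hg hgeo hι c n C ∧ mu hg hgeo hι (C.sg 0 (C.o 6)) = N
  have hQ : ∃ N, Q N := ⟨_, C0, h0, rfl⟩
  obtain ⟨C, hC, hN⟩ := Nat.find_spec hQ
  refine ⟨C, hC, ?_⟩
  intro C' hC'
  rw [hN]
  exact Nat.find_min' hQ ⟨C', hC', rfl⟩

section minimal

variable (M : Mods) (hSC : (XX hg hgeo hι).SC)

include M hSC

/-- the key inequality -/
theorem MinC.key (hc : Chn hg hgeo hι c ρ n) (h : MinC hg hgeo hι c n C) {k : ℕ}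
    {xm' xp' : XV A B g} {dp' s' d' : List (XE A B g)}
    (h1 : (XX hg hgeo hι).IsP (C.xp k) dp' xm') (h2 : dp'.length = n)
    (h3 : On (c (k + 1)) xm') (h4 : On (c (k + 1)) xp')
    (h5 : SideP hg hgeo hι (c (k + 1)) xm' xp' s')
    (h6 : (XX hg hgeo hι).IsP xp' d' (C.xm (k + 2))) (h7 : d'.length = n) :
    mu hg hgeo hι (C.wd k 6) ≤
      mu hg hgeo hι (C.s k ++ (dp' ++ (s' ++ (d' ++ C.wd (k + 2) 4)))) := by
  have hn := hc.ps
  have ho := upd_ok hc h.ok h1 h2 h3 h4 h5 h6 h7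
  have hm := h.min _ ho
  have e1 := ho.wd_sg6 hn k
  rw [upd_wd] at e1
  have e2 := h.ok.wd_sg6 hn k
  rw [e1, e2]
  unfold mu at hm ⊢
  rw [Cfg.sg_length, Cfg.sg_length] at hm ⊢
  rw [h.ok.ar_shift M hSC hn, ho.ar_shift M hSC hn]
  exact hm

/-- flips in the leg `k + 1` -/
theorem MinC.flip1 (hc : Chn hg hgeo hι c ρ n) (h : MinC hg hgeo hι c n C) {k : ℕ}
    {d1 R0 R1 d2 : List (XE A B g)} {y z : XV A B g} (hd : C.d (k + 1) = d1 ++ R0 ++ d2)
    (h1 : (XX hg hgeo hι).IsP (C.xp (k + 1)) d1 y) (h2 : (XX hg hgeo hι).IsP z d2 (C.xm (k + 2)))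
    (hR : (XX hg hgeo hι).IsP y R1 z) (hl : R1.length = R0.length) :
    mu hg hgeo hι (C.s k ++ C.d k ++ C.s (k + 1) ++ d1 ++ R0 ++ (d2 ++ C.wd (k + 2) 4)) ≤
      mu hg hgeo hι (C.s k ++ C.d k ++ C.s (k + 1) ++ d1 ++ R1 ++ (d2 ++ C.wd (k + 2) 4)) := by
  have hk := h.key M hSC hc (k := k) (h.ok.leg k) (h.ok.len k) (h.ok.om (k + 1)) (h.ok.op (k + 1))
    (h.ok.side (k + 1)) (d' := d1 ++ R1 ++ d2)
    (isP_append.2 ⟨z, isP_append.2 ⟨y, h1, hR⟩, h2⟩) (by
      have := h.ok.len (k + 1)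
      rw [hd] at this
      simp only [List.length_append] at this ⊢
      omega)
  rw [wd_six, hd] at hk
  simp only [List.append_assoc] at hk ⊢
  exact hk

/-- flips in the leg `k` -/
theorem MinC.flip0 (hc : Chn hg hgeo hι c ρ n) (h : MinC hg hgeo hι c n C) {k : ℕ}
    {d1 R0 R1 d2 : List (XE A B g)} {y z : XV A B g} (hd : C.d k = d1 ++ R0 ++ d2)
    (h1 : (XX hg hgeo hι).IsP (C.xp k) d1 y) (h2 : (XX hg hgeo hι).IsP z d2 (C.xm (k + 1)))
    (hR : (XX hg hgeo hι).IsP y R1 z) (hl : R1.length = R0.length) :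
    mu hg hgeo hι (C.s k ++ d1 ++ R0 ++ (d2 ++ C.wd (k + 1) 5)) ≤
      mu hg hgeo hι (C.s k ++ d1 ++ R1 ++ (d2 ++ C.wd (k + 1) 5)) := by
  have hk := h.key M hSC hc (k := k) (dp' := d1 ++ R1 ++ d2)
    (isP_append.2 ⟨z, isP_append.2 ⟨y, h1, hR⟩, h2⟩) (by
      have := h.ok.len k
      rw [hd] at this
      simp only [List.length_append] at this ⊢
      omega) (h.ok.om (k + 1)) (h.ok.op (k + 1)) (h.ok.side (k + 1)) (h.ok.leg (k + 1))
    (h.ok.len (k + 1))
  have e1 : C.wd (k + 1) 5 = C.s (k + 1) ++ (C.d (k + 1) ++ C.wd (k + 2) 4) := rfl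
  rw [e1]
  rw [wd_six, hd] at hk
  simp only [List.append_assoc] at hk ⊢
  exact hk

/-- sides: new path in the plane -/
theorem MinC.sideM (hc : Chn hg hgeo hι c ρ n) (h : MinC hg hgeo hι c n C) {k : ℕ}
    {s1 R0 R1 s2 : List (XE A B g)} (hs : C.s (k + 1) = s1 ++ R0 ++ s2)
    (hR : SideP hg hgeo hι (c (k + 1)) (C.xm (k + 1)) (C.xp (k + 1)) (s1 ++ R1 ++ s2)) :
    mu hg hgeo hι (C.s k ++ C.d k ++ s1 ++ R0 ++ (s2 ++ C.d (k + 1) ++ C.wd (k + 2) 4)) ≤
      mu hg hgeo hι (C.s k ++ C.d k ++ s1 ++ R1 ++ (s2 ++ C.d (k + 1) ++ C.wd (k + 2) 4)) := by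
  have hk := h.key M hSC hc (k := k) (h.ok.leg k) (h.ok.len k) (h.ok.om (k + 1)) (h.ok.op (k + 1))
    hR (h.ok.leg (k + 1)) (h.ok.len (k + 1))
  rw [wd_six, hs] at hk
  simp only [List.append_assoc] at hk ⊢
  exact hk

/-- moving the end of the leg `k` -/
theorem MinC.slideM (hc : Chn hg hgeo hι c ρ n) (h : MinC hg hgeo hι c n C) {k : ℕ}
    {d1 : List (XE A B g)} {e f1 f2 : XE A B g} (hd : C.d k = d1 ++ [e])
    (ht : (XX hg hgeo hι).Tri e f1 f2) (hf : car f2 = c (k + 1)) :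
    mu hg hgeo hι (C.s k ++ d1 ++ [e] ++ C.wd (k + 1) 5) ≤
      mu hg hgeo hι (C.s k ++ d1 ++ [f1, f2] ++ C.wd (k + 1) 5) := by
  have h1 := h.ok.leg k
  rw [hd] at h1
  obtain ⟨y, h2, h3⟩ := isP_append.1 h1
  have t1 : xsrc f1 = xsrc e := (XX hg hgeo hι).tri_src ht
  have t2 : xsrc f2 = xsrc (xinv f1) := (XX hg hgeo hι).tri_mid ht
  have t3 : xsrc (xinv f2) = xsrc (xinv e) := (XX hg hgeo hι).tri_tgt ht
  have h4 : xsrc e = y := h3.1
  have h5 : xsrc (xinv e) = C.xm (k + 1) := h3.2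
  have hk := h.key M hSC hc (k := k) (xm' := xsrc f2) (xp' := C.xp (k + 1)) (dp' := d1 ++ [f1])
    (s' := f2 :: C.s (k + 1)) (isP_append.2 ⟨y, h2, by rw [← h4]; exact t1, t2.symm⟩) (by
      have := h.ok.len k
      rw [hd] at this
      simp only [List.length_append, List.length_singleton] at this ⊢
      exact this) (by rw [← hf]; exact On_src f2) (h.ok.op (k + 1))
    ⟨⟨rfl, by
      have : (XX hg hgeo hι).tgt f2 = C.xm (k + 1) := t3.trans h5
      rw [this]; exact (h.ok.side (k + 1)).1⟩, by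
      intro x hx
      rcases List.mem_cons.1 hx with rfl | hx
      · exact hf
      · exact (h.ok.side (k + 1)).2 x hx⟩ (h.ok.leg (k + 1)) (h.ok.len (k + 1))
  have e1 : C.wd (k + 1) 5 = C.s (k + 1) ++ (C.d (k + 1) ++ C.wd (k + 2) 4) := rfl
  rw [e1]
  rw [wd_six, hd] at hk
  simp only [List.append_assoc, List.cons_append, List.nil_append] at hk ⊢
  exact hk

/-- moving the start of the leg `k + 1` -/
theorem MinC.slideP (hc : Chn hg hgeo hι c ρ n) (h : MinC hg hgeo hι c n C) {k : ℕ}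
    {d2 : List (XE A B g)} {e f1 f2 : XE A B g} (hd : C.d (k + 1) = e :: d2)
    (ht : (XX hg hgeo hι).Tri e f1 f2) (hf : car f1 = c (k + 1)) :
    mu hg hgeo hι (C.s k ++ C.d k ++ C.s (k + 1) ++ [e] ++ (d2 ++ C.wd (k + 2) 4)) ≤
      mu hg hgeo hι (C.s k ++ C.d k ++ C.s (k + 1) ++ [f1, f2] ++ (d2 ++ C.wd (k + 2) 4)) := by
  have h1 := h.ok.leg (k + 1)
  rw [hd] at h1
  have t1 : xsrc f1 = xsrc e := (XX hg hgeo hι).tri_src ht
  have t2 : xsrc f2 = xsrc (xinv f1) := (XX hg hgeo hι).tri_mid ht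
  have t3 : xsrc (xinv f2) = xsrc (xinv e) := (XX hg hgeo hι).tri_tgt ht
  have h4 : xsrc e = C.xp (k + 1) := h1.1
  have h5 : (XX hg hgeo hι).IsP (xsrc (xinv e)) d2 (C.xm (k + 2)) := h1.2
  have hk := h.key M hSC hc (k := k) (xm' := C.xm (k + 1)) (xp' := xsrc f2) (dp' := C.d k)
    (s' := C.s (k + 1) ++ [f1]) (d' := f2 :: d2) (h.ok.leg k) (h.ok.len k) (h.ok.om (k + 1))
    (by rw [t2, ← hf]; exact On_tgt f1)
    ((h.ok.side (k + 1)).append hg hgeo hι ⟨⟨t1.trans h4, t2.symm⟩, by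
      intro x hx
      rw [List.mem_singleton] at hx
      rw [hx]; exact hf⟩)
    ⟨rfl, by
      have : (XX hg hgeo hι).tgt f2 = xsrc (xinv e) := t3
      rw [this]; exact h5⟩ (by
      have := h.ok.len (k + 1)
      rw [hd] at this
      simpa using this)
  rw [wd_six, hd] at hk
  simp only [List.append_assoc, List.cons_append, List.nil_append] at hk ⊢
  exact hk

end minimal

end

end Pool.Agent.ABA.B.H52
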